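import Pool.Agent.Lib_helper13.Robin.Geo

/-!
# Robin project, block LA: the Laplacian in orthonormal bases
-/

namespace Pool.Agent.Lib_helper70.Robin

open Pool.Agent.Lib_helper13.Robin
open MeasureTheory Set Metric Filter Topology
open scoped RealInnerProductSpace ContDiff

noncomputable section

variable {d m : ℕ} (P : PD d m)

theorem la_pd2 {w : E d → ℝ} {x : E d} (hw : ContDiffAt ℝ 2 w x) (e : E d) :
    pd e (pd e w) x = iteratedFDeriv ℝ 2 w x ![e, e] := by
  have h1 : DifferentiableAt ℝ (fderiv ℝ w) x := by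
    have h2 : ContDiffAt ℝ 1 (fderiv ℝ w) x := hw.fderiv_right (m := 1) (by norm_num)
    exact h2.differentiableAt (by norm_num)
  rw [iteratedFDeriv_two_apply]
  unfold pd
  rw [fderiv_clm_apply h1 (differentiableAt_const e)]
  simp

/-- **LA.** the Laplacian in any orthonormal basis -/
theorem lap_onb {w : E d → ℝ} {x : E d} (hw : ContDiffAt ℝ 2 w x)
    {κ : Type} [Fintype κ] (b : OrthonormalBasis κ ℝ (E d)) :
    lap w x = ∑ k, pd (b k) (pd (b k) w) x := by
  have h1 := congrFun (InnerProductSpace.laplacian_eq_iteratedFDeriv_orthonormalBasis w b) x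
  have h2 := congrFun (InnerProductSpace.laplacian_eq_iteratedFDeriv_orthonormalBasis w
    (EuclideanSpace.basisFun (Fin d) ℝ)) x
  unfold lap
  simp only [la_pd2 hw]
  rw [← h1, h2]
  simp [bv]

/-- **LA.** -/
theorem lap_frame {p : E d} {i j : Fin m} {e1 e2 : E d} {om : ℝ} (hF : Frame P p i j e1 e2 om)
    {κ : Type} [Fintype κ] (b : OrthonormalBasis κ ℝ (P.N p)ᗮ) {w : E d → ℝ} {x : E d}
    (hw : ContDiffAt ℝ 2 w x) :
    lap w x = pd e1 (pd e1 w) x + pd e2 (pd e2 w) x
      + ∑ k, pd (b k : E d) (pd (b k : E d) w) x := by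
  have hN := Frame.N_eq hF
  have he1 : e1 ∈ P.N p := by rw [hN]; exact Submodule.subset_span (by simp)
  have he2 : e2 ∈ P.N p := by rw [hN]; exact Submodule.subset_span (by simp)
  set v : Fin 2 ⊕ κ → E d := Sum.elim ![e1, e2] (fun k => (b k : E d)) with hv
  have hon : Orthonormal ℝ v := by
    constructor
    · rintro (a | k)
      · fin_cases a
        · exact hF.n1
        · exact hF.n2
      · exact b.orthonormal.1 k
    · have hNb : ∀ u ∈ P.N p, ∀ k, ⟪u, (b k : E d)⟫ = 0 := fun u hu k =>
        (Submodule.mem_orthogonal _ _).1 (b k).2 u hu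
      rintro (a | k) (a' | k') hne
      · fin_cases a <;> fin_cases a'
        · exact absurd rfl hne
        · exact hF.orth
        · show ⟪e2, e1⟫ = 0
          rw [real_inner_comm]; exact hF.orth
        · exact absurd rfl hne
      · fin_cases a
        · exact hNb e1 he1 k'
        · exact hNb e2 he2 k'
      · fin_cases a'
        · show ⟪(b k : E d), e1⟫ = 0
          rw [real_inner_comm]; exact hNb e1 he1 k
        · show ⟪(b k : E d), e2⟫ = 0
          rw [real_inner_comm]; exact hNb e2 he2 k
      · have h1 : k ≠ k' := fun h => hne (by rw [h])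
        exact b.orthonormal.2 h1
  have hsp : ⊤ ≤ Submodule.span ℝ (Set.range v) := by
    intro y _
    have h1 : P.N p ≤ Submodule.span ℝ (Set.range v) := by
      rw [hN, Submodule.span_le]
      rintro z hz
      simp only [mem_insert_iff, mem_singleton_iff] at hz
      rcases hz with rfl | rfl
      · exact Submodule.subset_span ⟨Sum.inl 0, rfl⟩
      · exact Submodule.subset_span ⟨Sum.inl 1, rfl⟩
    have h2 : (P.N p)ᗮ ≤ Submodule.span ℝ (Set.range v) := by
      intro z hz
      have h3 := b.sum_repr ⟨z, hz⟩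
      have h4 : z = ∑ k, b.repr ⟨z, hz⟩ k • (b k : E d) := by
        have h6 := congrArg (Subtype.val) h3
        rw [Submodule.coe_sum] at h6
        exact h6.symm
      rw [h4]
      refine Submodule.sum_mem _ fun k _ => Submodule.smul_mem _ _ ?_
      exact Submodule.subset_span ⟨Sum.inr k, rfl⟩
    rw [← Submodule.starProjection_add_starProjection_orthogonal (K := P.N p) y]
    exact Submodule.add_mem _ (h1 (Submodule.starProjection_apply_mem _ _))
      (h2 (Submodule.starProjection_apply_mem _ _))
  have h5 := lap_onb hw (OrthonormalBasis.mk hon hsp)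
  rw [h5, Fintype.sum_sum_type, Fin.sum_univ_two]
  simp [hv]

end

end Pool.Agent.Lib_helper70.Robin
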