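import Pool.Agent.Lib_helper13.Robin.Geo

/-!
# Robin project, block Q3: product structure of the domain in the quadratic case
-/

namespace Pool.Agent.Lib_helper70.Robin

open Pool.Agent.Lib_helper13.Robin
open MeasureTheory Set Metric
open scoped RealInnerProductSpace ContDiff

noncomputable section

variable {d m : ℕ} (P : PD d m)

/-- a bounded polyhedral domain contains no ray -/
theorem q3_noray {h : E d} (hh : ∀ i, ⟪P.ν i, h⟫ ≤ 0) : h = 0 := by
  by_contra hne
  obtain ⟨z, hz⟩ := P.ne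
  obtain ⟨C, hC⟩ := P.bdd.exists_norm_le
  have h1 : ∀ t : ℝ, 0 ≤ t → ‖z + t • h‖ ≤ C := by
    intro t ht
    apply hC
    intro i
    rw [inner_add_right, inner_smul_right]
    have h2 := hz i
    have h3 := hh i
    nlinarith
  have hpos : 0 < ‖h‖ := norm_pos_iff.2 hne
  have hC0 : 0 ≤ C := le_trans (norm_nonneg _) (h1 0 le_rfl)
  have h2 := h1 ((C + ‖z‖ + 1) / ‖h‖) (by positivity)
  have h3 : ‖((C + ‖z‖ + 1) / ‖h‖) • h‖ = C + ‖z‖ + 1 := by
    rw [norm_smul, Real.norm_of_nonneg (by positivity), div_mul_cancel₀ _ hpos.ne']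
  have h4 : ‖((C + ‖z‖ + 1) / ‖h‖) • h‖ ≤
      ‖z + ((C + ‖z‖ + 1) / ‖h‖) • h‖ + ‖z‖ := by
    calc ‖((C + ‖z‖ + 1) / ‖h‖) • h‖ = ‖(z + ((C + ‖z‖ + 1) / ‖h‖) • h) - z‖ := by
          rw [add_sub_cancel_left]
      _ ≤ _ := norm_sub_le _ _
  linarith

/-- the normals are eigenvectors -/
theorem q3_eig {g : E d} {M : E d →ₗ[ℝ] E d} (hM : M.IsSymmetric)
    (h : ∀ i, ∀ q ∈ P.cl, P.A q = {i} → ⟪P.ν i, g - M q⟫ = -1) (i : Fin m) :
    M (P.ν i) = ⟪P.ν i, M (P.ν i)⟫ • P.ν i ∧
      ⟪P.ν i, M (P.ν i)⟫ * P.b i = ⟪P.ν i, g⟫ + 1 := by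
  obtain ⟨x, hx1, hx2⟩ := P.irr i
  have hxcl : x ∈ P.cl := by
    intro j
    by_cases hj : j = i
    · subst hj; exact hx1.le
    · exact (hx2 j hj).le
  have hxA : P.A x = {i} := by
    ext j
    simp only [PD.A, mem_ofPred_eq, mem_singleton_iff]
    constructor
    · intro hj; by_contra hne; exact absurd hj (hx2 j hne).ne
    · rintro rfl; exact hx1
  have hx := h i x hxcl hxA
  obtain ⟨r, hr⟩ := P.exists_con hxcl
  have hrpos := hr.pos
  -- orthogonality
  have horth : ∀ e : E d, ⟪P.ν i, e⟫ = 0 → ⟪M (P.ν i), e⟫ = 0 := by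
    intro e he
    by_cases he0 : e = 0
    · subst he0; simp
    have hepos : 0 < ‖e‖ := norm_pos_iff.2 he0
    set t : ℝ := r / (2 * ‖e‖) with ht
    have htpos : 0 < t := by positivity
    have hball : x + t • e ∈ ball x r := by
      rw [mem_ball, dist_eq_norm, add_sub_cancel_left, norm_smul, Real.norm_of_nonneg htpos.le, ht]
      have : r / (2 * ‖e‖) * ‖e‖ = r / 2 := by field_simp
      rw [this]; linarith
    have hAe : P.A (x + t • e) = {i} := by
      apply Subset.antisymm
      · rw [← hxA]; exact hr.A_sub hball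
      · rintro j hj
        rw [mem_singleton_iff] at hj
        subst hj
        change ⟪P.ν j, x + t • e⟫ = P.b j
        rw [inner_add_right, inner_smul_right, he, mul_zero, add_zero]; exact hx1
    have hcl : x + t • e ∈ P.cl := by
      rw [hr.mem_cl_iff hball]
      intro j hj
      rw [hxA, mem_singleton_iff] at hj
      subst hj
      rw [add_sub_cancel_left, inner_smul_right, he, mul_zero]
    have h2 := h i _ hcl hAe
    rw [map_add, map_smul, inner_sub_right, inner_add_right, inner_smul_right] at h2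
    rw [inner_sub_right] at hx
    have h3 : t * ⟪P.ν i, M e⟫ = 0 := by linarith
    have h4 : ⟪P.ν i, M e⟫ = 0 := by
      rcases mul_eq_zero.1 h3 with h5 | h5
      · exact absurd h5 htpos.ne'
      · exact h5
    rw [hM]; exact h4
  have hnn : ⟪P.ν i, P.ν i⟫ = (1 : ℝ) := by
    rw [real_inner_self_eq_norm_sq, P.unit, one_pow]
  have key : M (P.ν i) = ⟪P.ν i, M (P.ν i)⟫ • P.ν i := by
    set e := M (P.ν i) - ⟪P.ν i, M (P.ν i)⟫ • P.ν i with he
    have h1 : ⟪P.ν i, e⟫ = 0 := by
      rw [he, inner_sub_right, inner_smul_right, hnn, mul_one, sub_self]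
    have h2 := horth e h1
    have h3 : ⟪e, e⟫ = (0 : ℝ) := by
      conv_lhs => rw [he]
      rw [inner_sub_left, inner_smul_left, h1, mul_zero, sub_zero]
      exact h2
    have h4 : e = 0 := inner_self_eq_zero.1 h3
    rw [he] at h4
    exact sub_eq_zero.1 h4
  refine ⟨key, ?_⟩
  have h5 : ⟪P.ν i, M x⟫ = ⟪P.ν i, M (P.ν i)⟫ * P.b i := by
    rw [← hM]
    conv_lhs => rw [key]
    rw [inner_smul_left, hx1]; rfl
  rw [inner_sub_right, h5] at hx
  linarith

/-- **Q3.** -/
theorem prod_of_quad {g : E d} {M : E d →ₗ[ℝ] E d} (hM : M.IsSymmetric)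
    (h : ∀ i, ∀ q ∈ P.cl, P.A q = {i} → ⟪P.ν i, g - M q⟫ = -1) : IsProdCirc P.Om := by
  classical
  set κ : Fin m → ℝ := fun i => ⟪P.ν i, M (P.ν i)⟫ with hκ
  have hMν : ∀ i, M (P.ν i) = κ i • P.ν i := fun i => (q3_eig P hM h i).1
  have hb : ∀ i, κ i * P.b i = ⟪P.ν i, g⟫ + 1 := fun i => (q3_eig P hM h i).2
  set V : ℝ → Submodule ℝ (E d) := fun a => Submodule.span ℝ (P.ν '' {i | κ i = a}) with hV
  have hmem : ∀ i, P.ν i ∈ V (κ i) := fun i => Submodule.subset_span ⟨i, rfl, rfl⟩
  -- normals with different eigenvalues are orthogonal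
  have horth0 : ∀ i j, κ i ≠ κ j → ⟪P.ν i, P.ν j⟫ = (0 : ℝ) := by
    intro i j hij
    have h1 := hM (P.ν i) (P.ν j)
    rw [hMν, hMν, inner_smul_left, inner_smul_right] at h1
    simp only [conj_trivial] at h1
    have h2 : (κ i - κ j) * ⟪P.ν i, P.ν j⟫ = 0 := by linarith
    rcases mul_eq_zero.1 h2 with h3 | h3
    · exact absurd (sub_eq_zero.1 h3) hij
    · exact h3
  have horth : ∀ a b, a ≠ b → V a ⟂ V b := by
    intro a b hab
    rw [hV, Submodule.isOrtho_span]
    rintro _ ⟨i, hi, rfl⟩ _ ⟨j, hj, rfl⟩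
    rw [mem_ofPred_eq] at hi hj
    exact horth0 i j (by rw [hi, hj]; exact hab)
  -- normals against elements of V a
  have hVorth : ∀ i a, κ i ≠ a → ∀ y ∈ V a, ⟪P.ν i, y⟫ = 0 := by
    intro i a hia y hy
    exact (horth _ _ hia).inner_eq (hmem i) hy
  -- projections
  have hproj : ∀ i x, ⟪P.ν i, (V (κ i)).starProjection x⟫ = ⟪P.ν i, x⟫ := by
    intro i x
    have h1 : (V (κ i)).starProjection (P.ν i) = P.ν i :=
      Submodule.starProjection_eq_self_iff.2 (hmem i)
    calc ⟪P.ν i, (V (κ i)).starProjection x⟫ = ⟪(V (κ i)).starProjection (P.ν i), x⟫ := by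
          rw [Submodule.inner_starProjection_left_eq_right]
      _ = _ := by rw [h1]
  have hprojmem : ∀ a x, (V a).starProjection x ∈ V a := by
    intro a x
    exact Submodule.starProjection_apply_mem _ _
  -- eigenvalues are positive
  have hpos : ∀ i, 0 < κ i := by
    intro i
    by_contra hneg
    push Not at hneg
    rcases hneg.lt_or_eq with hlt | heq
    · -- negative eigenvalue
      obtain ⟨z, hz⟩ := P.ne
      set w : E d := (V (κ i)).starProjection z - (κ i)⁻¹ • (V (κ i)).starProjection g with hw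
      have hwV : w ∈ V (κ i) :=
        Submodule.sub_mem _ (hprojmem _ _) (Submodule.smul_mem _ _ (hprojmem _ _))
      have hval : ∀ j, κ j = κ i → ⟪P.ν j, w⟫ < 0 := by
        intro j hj
        have h1 := hproj j z
        have h2 := hproj j g
        rw [hj] at h1 h2
        rw [hw, inner_sub_right, inner_smul_right, h1, h2]
        have h3 := hb j
        rw [hj] at h3
        have h4 := hz j
        have h5 : ⟪P.ν j, g⟫ = κ i * P.b j - 1 := by linarith
        rw [h5]
        have h6 : (κ i)⁻¹ * (κ i * P.b j - 1) = P.b j - (κ i)⁻¹ := by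
          rw [mul_sub, ← mul_assoc, inv_mul_cancel₀ hlt.ne, one_mul, mul_one]
        rw [h6]
        have h7 : (κ i)⁻¹ < 0 := inv_lt_zero.2 hlt
        linarith
      have h0 : w = 0 := by
        apply q3_noray P
        intro j
        by_cases hj : κ j = κ i
        · exact (hval j hj).le
        · exact (hVorth j (κ i) hj w hwV).le
      have h1 := hval i rfl
      rw [h0, inner_zero_right] at h1
      exact lt_irrefl _ h1
    · -- zero eigenvalue
      set w : E d := (V (κ i)).starProjection g with hw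
      have hval : ∀ j, κ j = κ i → ⟪P.ν j, w⟫ = -1 := by
        intro j hj
        have h2 := hproj j g
        rw [hj] at h2
        rw [hw, h2]
        have h3 := hb j
        rw [hj, heq, zero_mul] at h3
        linarith
      have h0 : w = 0 := by
        apply q3_noray P
        intro j
        by_cases hj : κ j = κ i
        · rw [hval j hj]; norm_num
        · exact (hVorth j (κ i) hj w (hprojmem _ _)).le
      have h1 := hval i rfl
      rw [h0, inner_zero_right] at h1
      norm_num at h1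
  -- assembly
  set s : Finset ℝ := Finset.univ.image κ with hs
  have hks : ∀ i, κ i ∈ s := fun i => Finset.mem_image_of_mem _ (Finset.mem_univ i)
  set e : s ≃ Fin s.card := s.equivFin with he
  set c : ℝ → E d := fun a => a⁻¹ • (V a).starProjection g with hc
  refine ⟨s.card, fun j => V (e.symm j : ℝ),
    fun j => {y | y ∈ V (e.symm j : ℝ) ∧ ∀ n ∈ (Finset.univ.filter fun i => κ i = (e.symm j : ℝ)).image P.ν,
      ⟪n, y - c (e.symm j : ℝ)⟫ < ((e.symm j : ℝ))⁻¹}, ?_, ?_, ?_, ?_⟩
  · intro i j hij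
    apply horth
    intro h1
    exact hij (e.symm.injective (Subtype.ext h1))
  · rw [eq_top_iff]
    intro x _
    have h1 : (⨆ j, V (e.symm j : ℝ))ᗮ = ⊥ := by
      rw [eq_bot_iff]
      intro y hy
      rw [Submodule.mem_bot]
      apply q3_noray P
      intro i
      rw [Submodule.mem_orthogonal] at hy
      have h2 : P.ν i ∈ (⨆ j, V (e.symm j : ℝ)) := by
        apply Submodule.mem_iSup_of_mem (e ⟨κ i, hks i⟩)
        rw [Equiv.symm_apply_apply]
        exact hmem i
      exact (hy _ h2).le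
    have h2 : (⨆ j, V (e.symm j : ℝ)) = ⊤ := by
      rw [← Submodule.orthogonal_orthogonal (⨆ j, V (e.symm j : ℝ)), h1,
        Submodule.bot_orthogonal_eq_top]
    rw [h2]; trivial
  · intro j
    have hpj : 0 < (e.symm j : ℝ) := by
      have h1 : (e.symm j : ℝ) ∈ Finset.univ.image κ := (e.symm j).2
      rw [Finset.mem_image] at h1
      obtain ⟨i, _, hi⟩ := h1
      rw [← hi]; exact hpos i
    refine ⟨c (e.symm j : ℝ), Submodule.smul_mem _ _ (hprojmem _ _), ((e.symm j : ℝ))⁻¹,
      inv_pos.2 hpj, (Finset.univ.filter fun i => κ i = (e.symm j : ℝ)).image P.ν, ?_, rfl⟩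
    intro n hn
    rw [Finset.mem_image] at hn
    obtain ⟨i, hi, rfl⟩ := hn
    rw [Finset.mem_filter] at hi
    refine ⟨?_, P.unit i⟩
    show P.ν i ∈ V (e.symm j : ℝ)
    rw [← hi.2]; exact hmem i
  · -- the domain
    have hcomp : ∀ i x, (⟪P.ν i, (V (κ i)).starProjection x - c (κ i)⟫ < (κ i)⁻¹ ↔
        ⟪P.ν i, x⟫ < P.b i) := by
      intro i x
      rw [inner_sub_right, hproj, hc]
      simp only
      rw [inner_smul_right, hproj]
      have h3 := hb i
      have h5 : ⟪P.ν i, g⟫ = κ i * P.b i - 1 := by linarith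
      rw [h5]
      have hne := (hpos i).ne'
      have h6 : (κ i)⁻¹ * (κ i * P.b i - 1) = P.b i - (κ i)⁻¹ := by
        rw [mul_sub, ← mul_assoc, inv_mul_cancel₀ hne, one_mul, mul_one]
      rw [h6]
      constructor
      · intro h7; linarith
      · intro h7; linarith
    have hcomp' : ∀ i a x, κ i = a → (⟪P.ν i, (V a).starProjection x - c a⟫ < a⁻¹ ↔
        ⟪P.ν i, x⟫ < P.b i) := by
      rintro i a x rfl
      exact hcomp i x
    ext x
    simp only [mem_ofPred_eq]
    constructor
    · intro hx j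
      refine ⟨hprojmem _ _, ?_⟩
      intro n hn
      rw [Finset.mem_image] at hn
      obtain ⟨i, hi, rfl⟩ := hn
      rw [Finset.mem_filter] at hi
      exact (hcomp' i _ x hi.2).2 (hx i)
    · intro hx i
      have h1 := (hx (e ⟨κ i, hks i⟩)).2 (P.ν i)
      have h2 : κ i = ((e.symm (e ⟨κ i, hks i⟩) : s) : ℝ) := by
        rw [Equiv.symm_apply_apply]
      exact (hcomp' i _ x h2).1 (h1 (Finset.mem_image.2
        ⟨i, Finset.mem_filter.2 ⟨Finset.mem_univ i, h2⟩, rfl⟩))

end

end Pool.Agent.Lib_helper70.Robin
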