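import Pool.Agent.Lib_helper13.Robin.W.MS
import Pool.Agent.Lib_helper13.Robin.W.NL
import Pool.Agent.Lib_helper13.Robin.W.PL

/-!
# Robin project, block SU: sup bound near points of codimension at most two
-/

namespace Pool.Agent.Lib_helper70.Robin

open Pool.Agent.Lib_helper13.Robin
open MeasureTheory Set Metric Filter Topology
open scoped RealInnerProductSpace ContDiff

noncomputable section

variable {d m : ℕ} {P : PD d m}

/-- local integral of the square -/
def suI (P : PD d m) (w : E d → ℝ) (y : E d) (r : ℝ) : ℝ := ∫ x in P.Om ∩ ball y r, w x ^ 2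

/-- total mass of `th` -/
def suc (d : ℕ) : ℝ := ∫ z : E d, th z

theorem su_th_nonneg (z : E d) : 0 ≤ th z := le_max_right _ _

theorem su_th_le (z : E d) : th z ≤ 1 := by
  unfold th
  exact max_le (by nlinarith [sq_nonneg ‖z‖]) zero_le_one

theorem su_th_ge {z : E d} (h : ‖z‖ ≤ 1 / 2) : 3 / 4 ≤ th z := by
  unfold th
  refine le_max_of_le_left ?_
  nlinarith [norm_nonneg z]

theorem su_th_zero {z : E d} (h : 1 ≤ ‖z‖) : th z = 0 := by
  unfold th
  apply max_eq_right
  nlinarith [norm_nonneg z]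

theorem su_th_cont : Continuous (th : E d → ℝ) := by
  unfold th
  fun_prop

theorem su_th_supp : HasCompactSupport (th : E d → ℝ) := by
  apply HasCompactSupport.intro (isCompact_closedBall (0 : E d) 1)
  intro z hz
  apply su_th_zero
  rw [mem_closedBall, dist_zero_right, not_le] at hz
  exact hz.le

theorem suc_pos (d : ℕ) : 0 < suc d := by
  unfold suc
  apply su_th_cont.integral_pos_of_hasCompactSupport_nonneg_nonzero su_th_supp su_th_nonneg
    (x := 0)
  simp [th]

theorem su_ths_zero {y x : E d} {t : ℝ} (ht : 0 < t) (h : x ∉ ball y t) :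
    th (t⁻¹ • (x - y)) = 0 := by
  apply su_th_zero
  rw [norm_smul, norm_inv, Real.norm_of_nonneg ht.le]
  rw [mem_ball, dist_eq_norm, not_lt] at h
  rw [inv_mul_eq_div, le_div_iff₀ ht, one_mul]
  exact h

theorem su_ths_ge {y x : E d} {t : ℝ} (ht : 0 < t) (h : x ∈ ball y (t / 2)) :
    3 / 4 ≤ th (t⁻¹ • (x - y)) := by
  apply su_th_ge
  rw [norm_smul, norm_inv, Real.norm_of_nonneg ht.le]
  rw [mem_ball, dist_eq_norm] at h
  rw [inv_mul_eq_div, div_le_iff₀ ht]
  linarith

theorem su_scale (y : E d) {t : ℝ} (ht : 0 < t) :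
    ∫ x : E d, th (t⁻¹ • (x - y)) = t ^ d * suc d := by
  have h1 : ∫ x : E d, th (t⁻¹ • (x - y)) = ∫ x : E d, th (t⁻¹ • x) :=
    integral_sub_right_eq_self (fun x : E d => th (t⁻¹ • x)) y
  rw [h1, Measure.integral_comp_inv_smul]
  rw [finrank_euclideanSpace, Fintype.card_fin, abs_of_pos (by positivity), smul_eq_mul]
  rfl

theorem su_sq (w : E d → ℝ) : Lib_helper13.Robin.sq (fun _ : Unit => w) = fun x => w x ^ 2 := by
  funext x; simp [Lib_helper13.Robin.sq]

section
variable {w : E d → ℝ} {y : E d} {R : ℝ}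

theorem su_int (h : PP P (fun _ : Unit => w) (ball y R)) {t : ℝ} (ht : t < R) :
    IntegrableOn (fun x => w x ^ 2) (P.Om ∩ closedBall y t) := by
  have h1 := h.int1 (closedBall y t) (closedBall_subset_ball ht) (isCompact_closedBall _ _)
  have h2 : Lib_helper13.Robin.sq (fun _ : Unit => w) = fun x => w x ^ 2 := su_sq w
  rwa [h2] at h1

theorem su_int_ball (h : PP P (fun _ : Unit => w) (ball y R)) {t : ℝ} (ht : t < R) :
    IntegrableOn (fun x => w x ^ 2) (P.Om ∩ ball y t) :=
  (su_int h ht).mono_set (inter_subset_inter_right _ ball_subset_closedBall)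

theorem su_int_th (h : PP P (fun _ : Unit => w) (ball y R)) {t : ℝ} (ht0 : 0 < t) (ht : t < R) :
    IntegrableOn (fun x => w x ^ 2 * th (t⁻¹ • (x - y))) P.Om := by
  have h1 := su_int_ball h ht
  have h2 : IntegrableOn (fun x => w x ^ 2 * th (t⁻¹ • (x - y))) (P.Om ∩ ball y t) := by
    apply h1.mul_bdd (c := 1)
    · apply Continuous.aestronglyMeasurable
      exact su_th_cont.comp (by fun_prop)
    · refine Eventually.of_forall fun x => ?_
      rw [Real.norm_of_nonneg (su_th_nonneg _)]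
      exact su_th_le _
  refine h2.of_forall_sdiff_eq_zero P.measurableSet_Om ?_
  intro x hx
  have h3 : x ∉ ball y t := fun h3 => hx.2 ⟨hx.1, h3⟩
  simp only [su_ths_zero ht0 h3, mul_zero]

theorem su_mm_eq {t : ℝ} (ht0 : 0 < t) :
    ∫ x in P.Om, w x ^ 2 * th (t⁻¹ • (x - y)) =
      ∫ x in P.Om ∩ ball y t, w x ^ 2 * th (t⁻¹ • (x - y)) := by
  refine setIntegral_eq_of_subset_of_forall_sdiff_eq_zero P.measurableSet_Om inter_subset_left ?_
  intro x hx
  have h3 : x ∉ ball y t := fun h3 => hx.2 ⟨hx.1, h3⟩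
  simp only [su_ths_zero ht0 h3, mul_zero]

/-- upper bound of the mean -/
theorem su_mm_le (h : PP P (fun _ : Unit => w) (ball y R)) {t : ℝ} (ht0 : 0 < t) (ht : t < R) :
    mm P (fun x => w x ^ 2) y t ≤ (t ^ d)⁻¹ * suI P w y t := by
  unfold mm suI
  apply mul_le_mul_of_nonneg_left _ (by positivity)
  rw [su_mm_eq ht0]
  refine setIntegral_mono ((su_int_th h ht0 ht).mono_set inter_subset_left)
    (su_int_ball h ht) ?_
  intro x
  show w x ^ 2 * th (t⁻¹ • (x - y)) ≤ w x ^ 2
  exact mul_le_of_le_one_right (sq_nonneg _) (su_th_le _)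

/-- lower bound of the mean -/
theorem su_mm_ge (h : PP P (fun _ : Unit => w) (ball y R)) {t : ℝ} (ht0 : 0 < t) (ht : t < R) :
    (t ^ d)⁻¹ * (3 / 4 * suI P w y (t / 2)) ≤ mm P (fun x => w x ^ 2) y t := by
  unfold mm suI
  apply mul_le_mul_of_nonneg_left _ (by positivity)
  have h1 : ∫ x in P.Om ∩ ball y (t / 2), w x ^ 2 * th (t⁻¹ • (x - y)) ≤
      ∫ x in P.Om, w x ^ 2 * th (t⁻¹ • (x - y)) := by
    apply setIntegral_mono_set (su_int_th h ht0 ht)
    · exact Eventually.of_forall fun x => mul_nonneg (sq_nonneg _) (su_th_nonneg _)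
    · exact (inter_subset_left : P.Om ∩ ball y (t / 2) ⊆ P.Om).eventuallyLE
  refine le_trans ?_ h1
  rw [← integral_const_mul]
  refine setIntegral_mono_on ((su_int_ball h (by linarith)).const_mul _)
    ((su_int_th h ht0 ht).mono_set inter_subset_left)
    (P.measurableSet_Om.inter measurableSet_ball) ?_
  intro x hx
  have h2 := su_ths_ge ht0 hx.2
  have h3 := sq_nonneg (w x)
  nlinarith

theorem su_I_nonneg (r : ℝ) : 0 ≤ suI P w y r := by
  unfold suI
  exact setIntegral_nonneg (P.measurableSet_Om.inter measurableSet_ball) fun x _ => sq_nonneg _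

theorem su_I_mono (h : PP P (fun _ : Unit => w) (ball y R)) {z : E d} {r s : ℝ}
    (hs : s < R) (hsub : ball z r ⊆ ball y s) : suI P w z r ≤ suI P w y s := by
  unfold suI
  apply setIntegral_mono_set (su_int_ball h hs)
  · exact Eventually.of_forall fun x => sq_nonneg _
  · exact (inter_subset_inter_right P.Om hsub).eventuallyLE

theorem su_mono (hC : P.Con y R) (h : PP P (fun _ : Unit => w) (ball y R)) {t1 t2 : ℝ}
    (h1 : 0 < t1) (h12 : t1 ≤ t2) (h2 : t2 < R) :
    mm P (fun x => w x ^ 2) y t1 ≤ mm P (fun x => w x ^ 2) y t2 := by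
  have h3 := (mm_sq P hC h h1 h12 h2).2
  rw [su_sq] at h3
  have h4 : 0 ≤ ∫ s in t1..t2, s ^ (1 - (d : ℤ)) *
      ∫ x in P.Om, (2 * gsq (fun _ : Unit => w) x) * Th (s⁻¹ • (x - y)) := by
    apply intervalIntegral.integral_nonneg h12
    intro s hs
    have hs0 : 0 < s := lt_of_lt_of_le h1 hs.1
    apply mul_nonneg (zpow_nonneg hs0.le _)
    apply integral_nonneg
    intro x
    show 0 ≤ (2 * gsq (fun _ : Unit => w) x) * Th (s⁻¹ • (x - y))
    have h5 : 0 ≤ gsq (fun _ : Unit => w) x := Finset.sum_nonneg fun i _ => sq_nonneg _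
    have h6 : 0 ≤ Th (s⁻¹ • (x - y)) := by unfold Th; positivity
    positivity
  linarith

/-- growth of the local integrals -/
theorem su_grow (hC : P.Con y R) (h : PP P (fun _ : Unit => w) (ball y R)) {t s : ℝ}
    (h1 : 0 < t) (h12 : t ≤ s) (h2 : s < R) :
    suI P w y (t / 2) ≤ 4 / 3 * (t / s) ^ d * suI P w y s := by
  have hs : 0 < s := lt_of_lt_of_le h1 h12
  have k1 := su_mm_ge h h1 (lt_of_le_of_lt h12 h2)
  have k2 := su_mono hC h h1 h12 h2
  have k3 := su_mm_le h hs h2
  have k4 := (k1.trans k2).trans k3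
  have htd : 0 < t ^ d := by positivity
  have hsd : 0 < s ^ d := by positivity
  rw [inv_mul_eq_div, inv_mul_eq_div, div_le_div_iff₀ htd hsd] at k4
  rw [div_pow]
  have k5 : 4 / 3 * (t ^ d / s ^ d) * suI P w y s = (4 / 3 * (suI P w y s * t ^ d)) / s ^ d := by
    field_simp
  rw [k5, le_div_iff₀ hsd]
  linarith

/-- interior points -/
theorem su_point (hx : y ∈ P.Om) (hC : P.Con y R) (h : PP P (fun _ : Unit => w) (ball y R))
    {s : ℝ} (hs0 : 0 < s) (hs : s < R) :
    w y ^ 2 ≤ (suc d)⁻¹ * ((s ^ d)⁻¹ * suI P w y s) := by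
  have hcd := suc_pos d
  have hR := hC.pos
  have key : suc d * w y ^ 2 ≤ mm P (fun x => w x ^ 2) y s := by
    apply le_of_forall_pos_sub_le
    intro ε hε
    -- continuity
    have hcont : ContinuousAt (fun x => w x ^ 2) y := by
      have h1 : ContDiffOn ℝ ∞ w (P.Om ∩ ball y R) := h.sm ()
      have h2 : P.Om ∩ ball y R ∈ 𝓝 y :=
        (P.isOpen_Om.inter isOpen_ball).mem_nhds ⟨hx, mem_ball_self hR⟩
      exact (h1.continuousOn.continuousAt h2).pow 2
    set ε' := ε / suc d with hε'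
    have hε'0 : 0 < ε' := div_pos hε hcd
    have h3 : ∀ᶠ x in 𝓝 y, w y ^ 2 - ε' < w x ^ 2 :=
      hcont.eventually (lt_mem_nhds (by linarith))
    obtain ⟨δ, hδ, hδ2⟩ := Metric.eventually_nhds_iff_ball.1
      (h3.and (P.isOpen_Om.mem_nhds hx))
    set t := min s (δ / 2) with ht
    have ht0 : 0 < t := lt_min hs0 (by linarith)
    have hts : t ≤ s := min_le_left _ _
    have htδ : t < δ := lt_of_le_of_lt (min_le_right _ _) (by linarith)
    have k2 := su_mono hC h ht0 hts hs
    refine le_trans ?_ k2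
    have hint := su_int_th h ht0 (lt_of_le_of_lt hts hs)
    -- compare
    have hthint : Integrable (fun x : E d => th (t⁻¹ • (x - y))) := by
      apply Continuous.integrable_of_hasCompactSupport (su_th_cont.comp (by fun_prop))
      apply HasCompactSupport.intro (isCompact_closedBall y t)
      intro x hx'
      exact su_ths_zero ht0 fun h4 => hx' (ball_subset_closedBall h4)
    have h4 : ∫ x in P.Om, (w y ^ 2 - ε') * th (t⁻¹ • (x - y)) ≤
        ∫ x in P.Om, w x ^ 2 * th (t⁻¹ • (x - y)) := by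
      refine setIntegral_mono_on (hthint.integrableOn.const_mul _) hint P.measurableSet_Om ?_
      intro x _
      by_cases hxb : x ∈ ball y t
      · have h5 := (hδ2 x (ball_subset_ball htδ.le hxb)).1
        exact mul_le_mul_of_nonneg_right h5.le (su_th_nonneg _)
      · rw [su_ths_zero ht0 hxb, mul_zero, mul_zero]
    have h5 : ∫ x in P.Om, th (t⁻¹ • (x - y)) = t ^ d * suc d := by
      rw [← su_scale y ht0]
      apply setIntegral_eq_integral_of_forall_compl_eq_zero
      intro x hxO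
      apply su_ths_zero ht0
      intro hxb
      exact hxO (hδ2 x (ball_subset_ball htδ.le hxb)).2
    rw [integral_const_mul, h5] at h4
    unfold mm
    have htd : 0 < t ^ d := by positivity
    rw [inv_mul_eq_div, le_div_iff₀ htd]
    refine le_trans (le_of_eq ?_) h4
    rw [hε']
    field_simp
  have k3 := su_mm_le h hs0 hs
  have k4 := key.trans k3
  rw [inv_mul_eq_div, le_div_iff₀ hcd]
  linarith

end

/-- transfer of conicality -/
theorem su_con {p x : E d} {R r : ℝ} (hC : P.Con p R) (hr0 : 0 < r) (hr : r + ‖x - p‖ ≤ R)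
    (hA : ∀ i ∈ P.A p, ⟪P.ν i, x⟫ = P.b i ∨ ⟪P.ν i, x⟫ + r ≤ P.b i) : P.Con x r := by
  have h0 : ∀ i, ⟪P.ν i, x⟫ = P.b i ∨ ⟪P.ν i, x⟫ + r ≤ P.b i := by
    intro i
    by_cases hi : i ∈ P.A p
    · exact hA i hi
    · right
      have h1 := (hC.2.2 i).resolve_left hi
      have h2 : ⟪P.ν i, x - p⟫ ≤ ‖x - p‖ := by
        calc ⟪P.ν i, x - p⟫ ≤ ‖P.ν i‖ * ‖x - p‖ := real_inner_le_norm _ _
          _ = ‖x - p‖ := by rw [P.unit, one_mul]
      rw [inner_sub_right] at h2
      linarith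
  refine ⟨hr0, ?_, h0⟩
  intro i
  rcases h0 i with h1 | h1
  · exact h1.le
  · linarith

/-- facet step -/
theorem su_facet {x : E d} {i : Fin m} {w : E d → ℝ} {R' : ℝ} (hx : x ∈ P.Om)
    (hC : P.Con (x + (P.b i - ⟪P.ν i, x⟫) • P.ν i) R')
    (hA : ∀ j ∈ P.A (x + (P.b i - ⟪P.ν i, x⟫) • P.ν i), j = i)
    (h8 : 8 * (P.b i - ⟪P.ν i, x⟫) ≤ R')
    (h : PP P (fun _ : Unit => w) (ball (x + (P.b i - ⟪P.ν i, x⟫) • P.ν i) R')) :
    w x ^ 2 ≤ (suc d)⁻¹ * (4 / 3 * ((16 / R') ^ d *
      suI P w (x + (P.b i - ⟪P.ν i, x⟫) • P.ν i) (R' / 2))) := by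
  set δ := P.b i - ⟪P.ν i, x⟫ with hδ
  set x' := x + δ • P.ν i with hx'
  have hδ0 : 0 < δ := by rw [hδ]; linarith [hx i]
  have hR := hC.pos
  have hcd := suc_pos d
  have hdist : ‖x - x'‖ = δ := by
    rw [hx', sub_add_cancel_left, norm_neg, norm_smul, P.unit, mul_one, Real.norm_of_nonneg hδ0.le]
  have hnn : ⟪P.ν i, P.ν i⟫ = (1 : ℝ) := by
    rw [real_inner_self_eq_norm_sq, P.unit, one_pow]
  -- a conical ball at x
  have hCx : P.Con x δ := by
    have h0 : ∀ j, ⟪P.ν j, x⟫ + δ ≤ P.b j := by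
      intro j
      by_cases hj : j ∈ P.A x'
      · rw [hA j hj, hδ]; linarith
      · have h1 := (hC.2.2 j).resolve_left hj
        have h2 : ⟪P.ν j, x - x'⟫ ≤ ‖x - x'‖ := by
          calc ⟪P.ν j, x - x'⟫ ≤ ‖P.ν j‖ * ‖x - x'‖ := real_inner_le_norm _ _
            _ = ‖x - x'‖ := by rw [P.unit, one_mul]
        rw [inner_sub_right, hdist] at h2
        linarith
    exact ⟨hδ0, P.Om_sub_cl hx, fun j => Or.inr (h0 j)⟩
  have hd1 : dist x x' = δ := by rw [dist_eq_norm, hdist]
  have hPx : PP P (fun _ : Unit => w) (ball x δ) := by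
    apply h.mono
    apply ball_subset_ball'
    rw [hd1]; linarith
  have k1 := su_point hx hCx hPx (s := δ / 2) (by linarith) (by linarith)
  have k2 : suI P w x (δ / 2) ≤ suI P w x' (4 * δ / 2) := by
    apply su_I_mono h (by linarith)
    apply ball_subset_ball'
    rw [hd1]; linarith
  have k3 := su_grow hC h (t := 4 * δ) (s := R' / 2) (by linarith) (by linarith) (by linarith)
  have k4 := k2.trans k3
  refine k1.trans ?_
  apply mul_le_mul_of_nonneg_left _ (inv_pos.2 hcd).le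
  have k5 : (((δ / 2) ^ d)⁻¹ * suI P w x (δ / 2)) ≤
      ((δ / 2) ^ d)⁻¹ * (4 / 3 * (4 * δ / (R' / 2)) ^ d * suI P w x' (R' / 2)) :=
    mul_le_mul_of_nonneg_left k4 (by positivity)
  refine k5.trans (le_of_eq ?_)
  have k6 : ((δ / 2) ^ d)⁻¹ * (4 * δ / (R' / 2)) ^ d = (16 / R') ^ d := by
    rw [← inv_pow, ← mul_pow]
    congr 1
    field_simp
    norm_num
  rw [← k6]
  ring

/-- norm comparison in a sector -/
theorem su_sector {p : E d} {i j : Fin m} {e1 e2 : E d} {om : ℝ} (hF : Frame P p i j e1 e2 om)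
    {x : E d} (hx : x ∈ P.Om) :
    Real.sin om / 3 * P.rho p x ≤ max (P.b i - ⟪P.ν i, x⟫) (P.b j - ⟪P.ν j, x⟫) := by
  have hsin : 0 < Real.sin om := Real.sin_pos_of_pos_of_lt_pi hF.om0 hF.omπ
  have hN := Frame.N_eq hF
  have he1 : e1 ∈ P.N p := by rw [hN]; exact Submodule.subset_span (by simp)
  have he2 : e2 ∈ P.N p := by rw [hN]; exact Submodule.subset_span (by simp)
  set z := (P.N p).starProjection (x - p) with hz
  have hzN : z ∈ P.N p := Submodule.starProjection_apply_mem _ _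
  have hproj : ∀ e ∈ P.N p, ⟪e, z⟫ = ⟪e, x - p⟫ := by
    intro e he
    calc ⟪e, z⟫ = ⟪(P.N p).starProjection e, x - p⟫ := by
          rw [hz, Submodule.inner_starProjection_left_eq_right]
      _ = _ := by rw [Submodule.starProjection_eq_self_iff.2 he]
  have hz1 := hproj e1 he1
  have hz2 := hproj e2 he2
  set α := ⟪e1, x - p⟫ with hα
  set β := ⟪e2, x - p⟫ with hβ
  have h11 : ⟪e1, e1⟫ = (1 : ℝ) := by rw [real_inner_self_eq_norm_sq, hF.n1, one_pow]
  have h22 : ⟪e2, e2⟫ = (1 : ℝ) := by rw [real_inner_self_eq_norm_sq, hF.n2, one_pow]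
  have h21 : ⟪e2, e1⟫ = (0 : ℝ) := by rw [real_inner_comm]; exact hF.orth
  have hzz : z = α • e1 + β • e2 := by
    rw [hN, Submodule.mem_span_pair] at hzN
    obtain ⟨a, b, hab⟩ := hzN
    rw [← hab, inner_add_right, inner_smul_right, inner_smul_right, h11, hF.orth] at hz1
    rw [← hab, inner_add_right, inner_smul_right, inner_smul_right, h22, h21] at hz2
    have ha : a = α := by linarith
    have hb : b = β := by linarith
    rw [← hab, ha, hb]
  have hnorm : ‖z‖ ≤ |α| + |β| := by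
    rw [hzz]
    refine (norm_add_le _ _).trans ?_
    rw [norm_smul, norm_smul, hF.n1, hF.n2, mul_one, mul_one, Real.norm_eq_abs, Real.norm_eq_abs]
  have hpi : ⟪P.ν i, p⟫ = P.b i := by
    have : i ∈ P.A p := by rw [hF.hA]; simp
    exact this
  have hpj : ⟪P.ν j, p⟫ = P.b j := by
    have : j ∈ P.A p := by rw [hF.hA]; simp
    exact this
  have hdi : P.b i - ⟪P.ν i, x⟫ = β := by
    rw [hβ, ← hpi, ← inner_sub_right, hF.νi, inner_neg_left, ← inner_neg_right, neg_sub]
  have hdj : P.b j - ⟪P.ν j, x⟫ = Real.sin om * α - Real.cos om * β := by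
    rw [hα, hβ, ← hpj, ← inner_sub_right, hF.νj, inner_add_left, inner_smul_left,
      inner_smul_left, ← neg_sub x p, inner_neg_right, inner_neg_right]
    simp only [conj_trivial]
    ring
  have hi0 := hx i
  have hj0 := hx j
  set M := max (P.b i - ⟪P.ν i, x⟫) (P.b j - ⟪P.ν j, x⟫) with hM
  have hiM : P.b i - ⟪P.ν i, x⟫ ≤ M := le_max_left _ _
  have hjM : P.b j - ⟪P.ν j, x⟫ ≤ M := le_max_right _ _
  have hβ1 : |β| ≤ M := by rw [← hdi, abs_of_pos (by linarith)]; exact hiM
  have hc := Real.abs_cos_le_one om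
  have hα1 : Real.sin om * |α| ≤ 2 * M := by
    have h1 : Real.sin om * |α| = |Real.sin om * α| := by rw [abs_mul, abs_of_pos hsin]
    have h2 : Real.sin om * α = (P.b j - ⟪P.ν j, x⟫) + Real.cos om * β := by rw [hdj]; ring
    rw [h1, h2]
    refine (abs_add_le _ _).trans ?_
    rw [abs_mul, abs_of_pos (show 0 < P.b j - ⟪P.ν j, x⟫ by linarith)]
    have h3 : |Real.cos om| * |β| ≤ 1 * |β| := mul_le_mul_of_nonneg_right hc (abs_nonneg _)
    linarith
  have hrho : P.rho p x = ‖z‖ := rfl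
  rw [hrho]
  have h4 : Real.sin om * ‖z‖ ≤ Real.sin om * |α| + Real.sin om * |β| := by
    rw [← mul_add]; exact mul_le_mul_of_nonneg_left hnorm hsin.le
  have h5 : Real.sin om * |β| ≤ 1 * |β| :=
    mul_le_mul_of_nonneg_right (Real.sin_le_one om) (abs_nonneg _)
  linarith

/-- the edge step, in the sector half far from the facet `j` -/
theorem su_edge {p x : E d} {R κ : ℝ} {i j : Fin m} {w : E d → ℝ} (hC : P.Con p R)
    (hA : ∀ k ∈ P.A p, k = i ∨ k = j) (hi : i ∈ P.A p)
    (hx : x ∈ P.Om ∩ ball p (R / 32)) (hκ0 : 0 < κ) (hκ1 : κ ≤ 1 / 48)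
    (hj : 16 * κ * P.rho p x ≤ P.b j - ⟪P.ν j, x⟫)
    (h : PP P (fun _ : Unit => w) (ball p R)) :
    w x ^ 2 ≤ (suc d)⁻¹ * (4 / 3 * (4 / 3 * (32 / (κ * R)) ^ d)) * suI P w p (R / 2) := by
  have hR := hC.pos
  have hcd := suc_pos d
  have hci : 0 < (suc d)⁻¹ := inv_pos.2 hcd
  have hxp : ‖x - p‖ < R / 32 := by have := hx.2; rwa [mem_ball, dist_eq_norm] at this
  set ρ := P.rho p x with hρ
  set z := (P.N p).starProjection (x - p) with hz
  set s' := (P.N p)ᗮ.starProjection (x - p) with hs'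
  have hρz : ρ = ‖z‖ := rfl
  have hs'N : s' ∈ (P.N p)ᗮ := Submodule.starProjection_apply_mem _ _
  have hsum : z + s' = x - p := Submodule.starProjection_add_starProjection_orthogonal (K := P.N p) _
  have hs'n : ‖s'‖ ≤ ‖x - p‖ := Submodule.norm_starProjection_apply_le _ _
  have hzn : ‖z‖ ≤ ‖x - p‖ := Submodule.norm_starProjection_apply_le _ _
  set p' := p + s' with hp'
  have hxp' : x - p' = z := by
    rw [hp', ← sub_sub, ← hsum, add_sub_cancel_right]
  have hCp' : P.Con p' (R / 2) := (hC.shift hs'N (by linarith)).mono (by linarith) (by linarith)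
  have hpi : ⟪P.ν i, p⟫ = P.b i := hi
  have hδ0 : 0 < P.b i - ⟪P.ν i, x⟫ := by linarith [hx.1 i]
  have hδρ : P.b i - ⟪P.ν i, x⟫ ≤ ρ := by
    have h1 : ⟪P.ν i, s'⟫ = 0 := P.mem_N_orth.1 hs'N i hi
    have h2 : ⟪P.ν i, z⟫ = ⟪P.ν i, x⟫ - P.b i := by
      rw [← hpi, ← inner_sub_right, ← hsum, inner_add_right, h1, add_zero]
    have h3 : ⟪P.ν i, -z⟫ ≤ ‖-z‖ := by
      calc ⟪P.ν i, -z⟫ ≤ ‖P.ν i‖ * ‖-z‖ := real_inner_le_norm _ _
        _ = ‖-z‖ := by rw [P.unit, one_mul]
    rw [inner_neg_right, h2, norm_neg] at h3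
    rw [hρz]; linarith
  have hρ0 : 0 < ρ := lt_of_lt_of_le hδ0 hδρ
  have hPp' : PP P (fun _ : Unit => w) (ball p' (R / 2)) := by
    apply h.mono
    apply ball_subset_ball'
    rw [dist_eq_norm, hp', add_sub_cancel_left]; linarith
  -- from p' to p
  have g1 : suI P w p' (4 * ρ / 2) ≤ 4 / 3 * (4 * ρ / (R / 4)) ^ d * suI P w p (R / 2) := by
    have g2 := su_grow hCp' hPp' (t := 4 * ρ) (s := R / 4) (by linarith) (by linarith)
      (by linarith)
    refine g2.trans (mul_le_mul_of_nonneg_left ?_ (by positivity))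
    apply su_I_mono h (by linarith)
    apply ball_subset_ball'
    rw [dist_eq_norm, hp', add_sub_cancel_left]; linarith
  have hI0 : 0 ≤ suI P w p (R / 2) := su_I_nonneg _
  by_cases hcase : κ * ρ ≤ P.b i - ⟪P.ν i, x⟫
  · -- far from both facets
    have hκρ : κ * ρ ≤ ρ := by nlinarith
    have hCx : P.Con x (κ * ρ) := by
      apply su_con hC (by positivity) (by linarith)
      intro k hk
      right
      rcases hA k hk with rfl | rfl
      · linarith
      · nlinarith
    have hPx : PP P (fun _ : Unit => w) (ball x (κ * ρ)) := by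
      apply h.mono
      apply ball_subset_ball'
      rw [dist_eq_norm]; linarith
    have k1 := su_point hx.1 hCx hPx (s := κ * ρ / 2) (by positivity) (by nlinarith)
    have k2 : suI P w x (κ * ρ / 2) ≤ suI P w p' (4 * ρ / 2) := by
      apply su_I_mono hPp' (by linarith)
      apply ball_subset_ball'
      rw [dist_eq_norm, hxp', ← hρz]; linarith
    have k3 := k2.trans g1
    refine k1.trans ?_
    rw [mul_assoc]
    apply mul_le_mul_of_nonneg_left _ hci.le
    have k5 := mul_le_mul_of_nonneg_left k3 (show 0 ≤ ((κ * ρ / 2) ^ d)⁻¹ by positivity)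
    refine k5.trans ?_
    have k6 : ((κ * ρ / 2) ^ d)⁻¹ * (4 * ρ / (R / 4)) ^ d = (32 / (κ * R)) ^ d := by
      rw [← inv_pow, ← mul_pow]
      congr 1
      field_simp
      norm_num
    have k7 : ((κ * ρ / 2) ^ d)⁻¹ * (4 / 3 * (4 * ρ / (R / 4)) ^ d * suI P w p (R / 2)) =
        4 / 3 * (32 / (κ * R)) ^ d * suI P w p (R / 2) := by
      rw [← k6]; ring
    rw [k7]
    apply mul_le_mul_of_nonneg_right _ hI0
    have : 0 < (32 / (κ * R)) ^ d := by positivity
    linarith
  · -- close to the facet i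
    push Not at hcase
    have hκρ : κ * ρ ≤ ρ / 48 := by nlinarith
    have hx'x : ‖(x + (P.b i - ⟪P.ν i, x⟫) • P.ν i) - x‖ = P.b i - ⟪P.ν i, x⟫ := by
      rw [add_sub_cancel_left, norm_smul, P.unit, mul_one, Real.norm_of_nonneg hδ0.le]
    have hnn : ⟪P.ν i, P.ν i⟫ = (1 : ℝ) := by
      rw [real_inner_self_eq_norm_sq, P.unit, one_pow]
    have hx'i : ⟪P.ν i, x + (P.b i - ⟪P.ν i, x⟫) • P.ν i⟫ = P.b i := by
      rw [inner_add_right, inner_smul_right, hnn]; ring
    have hx'j : ⟪P.ν j, x + (P.b i - ⟪P.ν i, x⟫) • P.ν i⟫ + 8 * (κ * ρ) ≤ P.b j := by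
      rw [inner_add_right, inner_smul_right]
      have h1 : ⟪P.ν j, P.ν i⟫ ≤ 1 := by
        calc ⟪P.ν j, P.ν i⟫ ≤ ‖P.ν j‖ * ‖P.ν i‖ := real_inner_le_norm _ _
          _ = 1 := by rw [P.unit, P.unit, one_mul]
      have h2 : (P.b i - ⟪P.ν i, x⟫) * ⟪P.ν j, P.ν i⟫ ≤ (P.b i - ⟪P.ν i, x⟫) * 1 :=
        mul_le_mul_of_nonneg_left h1 hδ0.le
      have h3 : 0 < κ * ρ := by positivity
      linarith
    set x' := x + (P.b i - ⟪P.ν i, x⟫) • P.ν i with hx'
    have hx'p : ‖x' - p‖ ≤ R / 16 := by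
      calc ‖x' - p‖ = ‖(x' - x) + (x - p)‖ := by rw [sub_add_sub_cancel]
        _ ≤ ‖x' - x‖ + ‖x - p‖ := norm_add_le _ _
        _ ≤ R / 16 := by rw [hx'x]; linarith
    have hx'p' : ‖x' - p'‖ ≤ κ * ρ + ρ := by
      calc ‖x' - p'‖ = ‖(x' - x) + (x - p')‖ := by rw [sub_add_sub_cancel]
        _ ≤ ‖x' - x‖ + ‖x - p'‖ := norm_add_le _ _
        _ ≤ κ * ρ + ρ := by rw [hx'x, hxp', ← hρz]; linarith
    have hCx : P.Con x' (8 * (κ * ρ)) := by
      apply su_con hC (by positivity) (by linarith)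
      intro k hk
      rcases hA k hk with rfl | rfl
      · exact Or.inl hx'i
      · exact Or.inr hx'j
    have hx'b : x' ∈ ball p R := by rw [mem_ball, dist_eq_norm]; linarith
    have hAx : ∀ k ∈ P.A x', k = i := by
      intro k hk
      rcases hA k (hC.A_sub hx'b hk) with h1 | h1
      · exact h1
      · exfalso
        subst h1
        have h2 : ⟪P.ν k, x'⟫ = P.b k := hk
        have h3 : 0 < κ * ρ := by positivity
        linarith
    have hPx : PP P (fun _ : Unit => w) (ball x' (8 * (κ * ρ))) := by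
      apply h.mono
      apply ball_subset_ball'
      rw [dist_eq_norm]; linarith
    have k1 := su_facet hx.1 hCx hAx (by linarith) hPx
    have k2 : suI P w x' (8 * (κ * ρ) / 2) ≤ suI P w p' (4 * ρ / 2) := by
      apply su_I_mono hPp' (by linarith)
      apply ball_subset_ball'
      rw [dist_eq_norm]; linarith
    have k3 := k2.trans g1
    refine k1.trans ?_
    rw [mul_assoc]
    apply mul_le_mul_of_nonneg_left _ hci.le
    rw [mul_assoc]
    apply mul_le_mul_of_nonneg_left _ (by norm_num)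
    have k5 := mul_le_mul_of_nonneg_left k3 (show 0 ≤ (16 / (8 * (κ * ρ))) ^ d by positivity)
    refine k5.trans (le_of_eq ?_)
    have k6 : (16 / (8 * (κ * ρ))) ^ d * (4 * ρ / (R / 4)) ^ d = (32 / (κ * R)) ^ d := by
      rw [← mul_pow]
      congr 1
      field_simp
      norm_num
    rw [← k6]; ring

/-- **SU.** sup bound near points of codimension at most 2, with a constant independent of `T` -/
theorem sup_bound {d m : ℕ} (P : PD d m) {p : E d} {R : ℝ} (hC : P.Con p R) (hr : P.rk p ≤ 2) :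
    ∃ C > 0, ∀ w : E d → ℝ, PP P (fun _ : Unit => w) (ball p R) →
      ∀ x ∈ P.Om ∩ ball p (R / 32), w x ^ 2 ≤ C * ∫ y in P.Om ∩ ball p (R / 2), w y ^ 2 := by
  have hR := hC.pos
  have hcd := suc_pos d
  have hci : 0 < (suc d)⁻¹ := inv_pos.2 hcd
  rcases Nat.lt_or_ge (P.rk p) 1 with h0 | h0
  · -- interior point
    have hp : p ∈ P.Om := (P.rk_eq_zero hC.mem).1 (by omega)
    have hAp : P.A p = ∅ := (P.A_eq_empty_iff hC.mem).2 hp
    refine ⟨(suc d)⁻¹ * ((R / 4) ^ d)⁻¹, by positivity, ?_⟩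
    intro w h x hx
    have hxp : ‖x - p‖ < R / 32 := by have := hx.2; rwa [mem_ball, dist_eq_norm] at this
    have hCx : P.Con x (R / 2) := by
      apply su_con hC (by linarith) (by linarith)
      intro i hi
      rw [hAp] at hi
      exact absurd hi (notMem_empty i)
    have hPx : PP P (fun _ : Unit => w) (ball x (R / 2)) := by
      apply h.mono
      apply ball_subset_ball'
      rw [dist_eq_norm]; linarith
    have k1 := su_point hx.1 hCx hPx (s := R / 4) (by linarith) (by linarith)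
    have k2 : suI P w x (R / 4) ≤ suI P w p (R / 2) := by
      apply su_I_mono h (by linarith)
      apply ball_subset_ball'
      rw [dist_eq_norm]; linarith
    refine k1.trans ?_
    rw [mul_assoc]
    exact mul_le_mul_of_nonneg_left (mul_le_mul_of_nonneg_left k2 (by positivity)) hci.le
  rcases Nat.lt_or_ge (P.rk p) 2 with h1 | h1
  · -- facet
    obtain ⟨i, hi⟩ := P.rk_eq_one hC.mem (by omega)
    refine ⟨(suc d)⁻¹ * (4 / 3 * (16 / (R / 2)) ^ d), by positivity, ?_⟩
    intro w h x hx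
    have hxp : ‖x - p‖ < R / 32 := by have := hx.2; rwa [mem_ball, dist_eq_norm] at this
    have hpi : ⟪P.ν i, p⟫ = P.b i := by
      have : i ∈ P.A p := by rw [hi]; rfl
      exact this
    have hδ : P.b i - ⟪P.ν i, x⟫ ≤ ‖x - p‖ := by
      have h2 : ⟪P.ν i, p - x⟫ ≤ ‖p - x‖ := by
        calc ⟪P.ν i, p - x⟫ ≤ ‖P.ν i‖ * ‖p - x‖ := real_inner_le_norm _ _
          _ = ‖p - x‖ := by rw [P.unit, one_mul]
      rw [inner_sub_right, hpi, norm_sub_rev] at h2
      exact h2
    have hδ0 : 0 < P.b i - ⟪P.ν i, x⟫ := by linarith [hx.1 i]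
    have hx'x : ‖(x + (P.b i - ⟪P.ν i, x⟫) • P.ν i) - x‖ = P.b i - ⟪P.ν i, x⟫ := by
      rw [add_sub_cancel_left, norm_smul, P.unit, mul_one, Real.norm_of_nonneg hδ0.le]
    set x' := x + (P.b i - ⟪P.ν i, x⟫) • P.ν i with hx'
    have hx'p : ‖x' - p‖ ≤ R / 16 := by
      calc ‖x' - p‖ = ‖(x' - x) + (x - p)‖ := by rw [sub_add_sub_cancel]
        _ ≤ ‖x' - x‖ + ‖x - p‖ := norm_add_le _ _
        _ ≤ R / 16 := by linarith
    have hnn : ⟪P.ν i, P.ν i⟫ = (1 : ℝ) := by
      rw [real_inner_self_eq_norm_sq, P.unit, one_pow]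
    have hx'i : ⟪P.ν i, x'⟫ = P.b i := by
      rw [hx', inner_add_right, inner_smul_right, hnn]; ring
    have hCx : P.Con x' (R / 2) := by
      apply su_con hC (by linarith) (by linarith)
      intro j hj
      rw [hi, mem_singleton_iff] at hj
      subst hj
      exact Or.inl hx'i
    have hx'b : x' ∈ ball p R := by rw [mem_ball, dist_eq_norm]; linarith
    have hAx : ∀ j ∈ P.A x', j = i := by
      intro j hj
      have := hC.A_sub hx'b hj
      rw [hi] at this
      exact this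
    have hPx : PP P (fun _ : Unit => w) (ball x' (R / 2)) := by
      apply h.mono
      apply ball_subset_ball'
      rw [dist_eq_norm]; linarith
    have k1 := su_facet hx.1 hCx hAx (by linarith) hPx
    have k2 : suI P w x' (R / 2 / 2) ≤ suI P w p (R / 2) := by
      apply su_I_mono h (by linarith)
      apply ball_subset_ball'
      rw [dist_eq_norm]; linarith
    refine k1.trans ?_
    rw [mul_assoc, mul_assoc]
    exact mul_le_mul_of_nonneg_left (mul_le_mul_of_nonneg_left
      (mul_le_mul_of_nonneg_left k2 (by positivity)) (by norm_num)) hci.le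
  · -- edge
    obtain ⟨i, j, e1, e2, om, hF⟩ := P.rk_eq_two hC.mem (by omega)
    have hsin : 0 < Real.sin om := Real.sin_pos_of_pos_of_lt_pi hF.om0 hF.omπ
    set κ := Real.sin om / 48 with hκ
    have hκ0 : 0 < κ := by positivity
    have hκ1 : κ ≤ 1 / 48 := by rw [hκ]; linarith [Real.sin_le_one om]
    refine ⟨(suc d)⁻¹ * (4 / 3 * (4 / 3 * (32 / (κ * R)) ^ d)), by positivity, ?_⟩
    intro w h x hx
    have hxp : ‖x - p‖ < R / 32 := by have := hx.2; rwa [mem_ball, dist_eq_norm] at this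
    have hsec := su_sector hF hx.1
    have h16 : 16 * κ * P.rho p x = Real.sin om / 3 * P.rho p x := by rw [hκ]; ring
    rw [← h16] at hsec
    rcases le_max_iff.1 hsec with h2 | h2
    · exact su_edge (i := j) (j := i) hC (by
        intro k hk
        rw [hF.hA] at hk
        simp only [mem_insert_iff, mem_singleton_iff] at hk
        tauto) (by rw [hF.hA]; simp) hx hκ0 hκ1 h2 h
    · exact su_edge (i := i) (j := j) hC (by
        intro k hk
        rw [hF.hA] at hk
        simp only [mem_insert_iff, mem_singleton_iff] at hk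
        tauto) (by rw [hF.hA]; simp) hx hκ0 hκ1 h2 h

end

end Pool.Agent.Lib_helper70.Robin
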