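import Pool.Agent.Lib_helper13.Robin.Geo

/-!
# Robin project, block XQ: quasi-concavity excludes the singular term at obtuse edges
-/

namespace Pool.Agent.Lib_helper70.Robin

open Pool.Agent.Lib_helper13.Robin
open MeasureTheory Set Metric Filter Topology
open scoped RealInnerProductSpace ContDiff

noncomputable section

/-- the profile of `-Re z^β` along the line `Re (z e^{-iβω/2}) = 1` -/
def xqphi (β s : ℝ) : ℝ := (1 + s ^ 2) ^ (β / 2) * Real.sin (β * Real.arctan s)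

/-- its derivative, divided by `β` -/
def xqD (β s : ℝ) : ℝ := (1 + s ^ 2) ^ (β / 2 - 1) *
  (s * Real.sin (β * Real.arctan s) + Real.cos (β * Real.arctan s))

theorem xq_hasDeriv (β s : ℝ) : HasDerivAt (xqphi β) (β * xqD β s) s := by
  have h0 : (0 : ℝ) < 1 + s ^ 2 := by positivity
  have h1 : HasDerivAt (fun s : ℝ => 1 + s ^ 2) (2 * s) s := by
    simpa using (hasDerivAt_pow 2 s).const_add 1
  have h2 : HasDerivAt (fun s : ℝ => (1 + s ^ 2) ^ (β / 2))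
      (2 * s * (β / 2) * (1 + s ^ 2) ^ (β / 2 - 1)) s := h1.rpow_const (Or.inl h0.ne')
  have h3 : HasDerivAt (fun s : ℝ => β * Real.arctan s) (β * (1 / (1 + s ^ 2))) s :=
    (Real.hasDerivAt_arctan s).const_mul β
  have h5 := h2.mul h3.sin
  refine h5.congr_deriv ?_
  unfold xqD
  have h6 : (1 + s ^ 2) ^ (β / 2) = (1 + s ^ 2) ^ (β / 2 - 1) * (1 + s ^ 2) := by
    rw [Real.rpow_sub_one h0.ne', div_mul_cancel₀ _ h0.ne']
  rw [h6]
  field_simp

theorem xq_hasDeriv2 (β s : ℝ) : HasDerivAt (xqD β) ((β - 1) * (1 + s ^ 2) ^ (β / 2 - 2) *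
    (Real.sin (β * Real.arctan s) * (s ^ 2 - 1) + 2 * s * Real.cos (β * Real.arctan s))) s := by
  have h0 : (0 : ℝ) < 1 + s ^ 2 := by positivity
  have h1 : HasDerivAt (fun s : ℝ => 1 + s ^ 2) (2 * s) s := by
    simpa using (hasDerivAt_pow 2 s).const_add 1
  have h2 : HasDerivAt (fun s : ℝ => (1 + s ^ 2) ^ (β / 2 - 1))
      (2 * s * (β / 2 - 1) * (1 + s ^ 2) ^ (β / 2 - 1 - 1)) s := h1.rpow_const (Or.inl h0.ne')
  have h3 : HasDerivAt (fun s : ℝ => β * Real.arctan s) (β * (1 / (1 + s ^ 2))) s :=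
    (Real.hasDerivAt_arctan s).const_mul β
  have h4 := ((hasDerivAt_id s).mul h3.sin).add h3.cos
  have h5 := h2.mul h4
  refine h5.congr_deriv ?_
  have h6 : (1 + s ^ 2) ^ (β / 2 - 1) = (1 + s ^ 2) ^ (β / 2 - 2) * (1 + s ^ 2) := by
    rw [show β / 2 - 2 = (β / 2 - 1) - 1 by ring, Real.rpow_sub_one h0.ne' (β / 2 - 1),
      div_mul_cancel₀ _ h0.ne']
  have h7 : β / 2 - 1 - 1 = β / 2 - 2 := by ring
  simp only [Pi.mul_apply, Pi.add_apply, id]
  rw [h7, h6]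
  field_simp
  ring

theorem xq_strict {β : ℝ} (h1 : 1 < β) (h2 : β < 2) : StrictConvexOn ℝ (Ici 0) (xqphi β) := by
  have hcont : Continuous (xqphi β) :=
    continuous_iff_continuousAt.2 fun s => (xq_hasDeriv β s).continuousAt
  have hcont2 : Continuous (xqD β) :=
    continuous_iff_continuousAt.2 fun s => (xq_hasDeriv2 β s).continuousAt
  have hmono : StrictMonoOn (xqD β) (Ici 0) := by
    apply strictMonoOn_of_deriv_pos (convex_Ici 0) hcont2.continuousOn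
    intro s hs
    rw [interior_Ici, mem_Ioi] at hs
    rw [(xq_hasDeriv2 β s).deriv]
    have h0 : (0 : ℝ) < 1 + s ^ 2 := by positivity
    apply mul_pos (mul_pos (by linarith) (Real.rpow_pos_of_pos h0 _))
    set ψ := Real.arctan s with hψ
    have hψ0 : 0 < ψ := Real.arctan_pos.2 hs
    have hψ1 : ψ < Real.pi / 2 := Real.arctan_lt_pi_div_two s
    have hc : 0 < Real.cos ψ := Real.cos_arctan_pos s
    have hs2 : s = Real.sin ψ / Real.cos ψ := by
      rw [← Real.tan_eq_sin_div_cos, hψ, Real.tan_arctan]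
    have h3 : Real.sin ((2 - β) * ψ) = Real.cos ψ ^ 2 *
        (Real.sin (β * ψ) * (s ^ 2 - 1) + 2 * s * Real.cos (β * ψ)) := by
      have h4 : (2 - β) * ψ = 2 * ψ - β * ψ := by ring
      rw [h4, Real.sin_sub, Real.sin_two_mul, Real.cos_two_mul, hs2]
      have h5 : Real.sin ψ ^ 2 = 1 - Real.cos ψ ^ 2 := by
        have := Real.sin_sq_add_cos_sq ψ; linarith
      field_simp
      rw [h5]
      ring
    have h6 : 0 < Real.sin ((2 - β) * ψ) := by
      apply Real.sin_pos_of_pos_of_lt_pi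
      · exact mul_pos (by linarith) hψ0
      · nlinarith [Real.pi_pos]
    rw [h3] at h6
    exact (pos_iff_pos_of_mul_pos h6).1 (by positivity)
  apply StrictMonoOn.strictConvexOn_of_deriv (convex_Ici 0) hcont.continuousOn
  rw [interior_Ici]
  intro x hx y hy hxy
  rw [(xq_hasDeriv β x).deriv, (xq_hasDeriv β y).deriv]
  exact mul_lt_mul_of_pos_left (hmono (mem_Ici_of_Ioi hx) (mem_Ici_of_Ioi hy) hxy) (by linarith)

theorem xq_half {β σ : ℝ} (h1 : 1 < β) (h2 : β < 2) (hσ : 0 < σ) :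
    xqphi β (σ / 2) < xqphi β σ / 2 := by
  have h3 : xqphi β ((1 / 2 : ℝ) • (0 : ℝ) + (1 / 2 : ℝ) • σ) <
      (1 / 2 : ℝ) • xqphi β 0 + (1 / 2 : ℝ) • xqphi β σ :=
    (xq_strict h1 h2).2 (show (0 : ℝ) ∈ Ici (0 : ℝ) by simp) (show σ ∈ Ici (0 : ℝ) from hσ.le)
      hσ.ne (by norm_num) (by norm_num) (by norm_num)
  have h4 : xqphi β 0 = 0 := by simp [xqphi]
  simp only [smul_eq_mul, mul_zero, zero_add, h4] at h3
  rw [show σ / 2 = 1 / 2 * σ by ring, show xqphi β σ / 2 = 1 / 2 * xqphi β σ by ring]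
  exact h3

theorem xq_odd (β s : ℝ) : xqphi β (-s) = - xqphi β s := by
  simp [xqphi, Real.arctan_neg]

theorem xq_polar {d : ℕ} (e1 e2 : E d) (om a s : ℝ) :
    yy e1 e2 (a * Real.sqrt (1 + s ^ 2)) (om / 2 + Real.arctan s) =
      a • (Real.cos (om / 2) • e1 + Real.sin (om / 2) • e2) +
        (a * s) • ((-Real.sin (om / 2)) • e1 + Real.cos (om / 2) • e2) := by
  have h0 : (0 : ℝ) < 1 + s ^ 2 := by positivity
  have h1 : 0 < Real.sqrt (1 + s ^ 2) := Real.sqrt_pos.2 h0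
  unfold yy
  rw [Real.cos_add, Real.sin_add, Real.cos_arctan, Real.sin_arctan]
  simp only [smul_add, smul_smul]
  have h2 : a * √(1 + s ^ 2) * (Real.cos (om / 2) * (1 / √(1 + s ^ 2)) -
      Real.sin (om / 2) * (s / √(1 + s ^ 2))) =
      a * Real.cos (om / 2) + a * s * (-Real.sin (om / 2)) := by
    field_simp
    ring
  have h3 : a * √(1 + s ^ 2) * (Real.sin (om / 2) * (1 / √(1 + s ^ 2)) +
      Real.cos (om / 2) * (s / √(1 + s ^ 2))) =
      a * Real.sin (om / 2) + a * s * Real.cos (om / 2) := by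
    field_simp
  rw [h2, h3, add_smul, add_smul]
  abel

section
variable {d : ℕ} {om : ℝ} {e1 e2 γ : E d} {F : E d → ℝ} {V0 c C r : ℝ}

theorem xq_angle (h : Real.pi / 2 < om) (hπ : om < Real.pi) {s : ℝ}
    (hs : |s| < Real.tan (om / 2)) : om / 2 + Real.arctan s ∈ Ioo 0 om := by
  have h1 : Real.arctan (Real.tan (om / 2)) = om / 2 :=
    Real.arctan_tan (by linarith [Real.pi_pos]) (by linarith)
  obtain ⟨h2, h3⟩ := abs_lt.1 hs
  have h4 : Real.arctan s < om / 2 := by rw [← h1]; exact Real.arctan_strictMono h3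
  have h5 : -(om / 2) < Real.arctan s := by
    rw [← h1, ← Real.arctan_neg]; exact Real.arctan_strictMono h2
  exact ⟨by linarith, by linarith⟩

/-- the expansion in the coordinates `(a,s)` -/
theorem xq_exp (h : Real.pi / 2 < om) (hπ : om < Real.pi)
    (hγ1 : ⟪γ, e2⟫ = 1)
    (hγ2 : ⟪γ, (-Real.sin om) • e1 + Real.cos om • e2⟫ = -1)
    (hexp : ∀ ρ ∈ Ioo 0 r, ∀ θ ∈ Ioo 0 om, |F (yy e1 e2 ρ θ) - V0 - ⟪γ, yy e1 e2 ρ θ⟫ -
      c * ρ ^ (Real.pi / om) * Real.cos (Real.pi / om * θ)| ≤ C * ρ ^ 2)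
    {a s : ℝ} (ha : 0 < a) (hs : |s| < Real.tan (om / 2)) (har : a * Real.sqrt (1 + s ^ 2) < r) :
    |F (a • (Real.cos (om / 2) • e1 + Real.sin (om / 2) • e2) +
        (a * s) • ((-Real.sin (om / 2)) • e1 + Real.cos (om / 2) • e2)) - V0
        - a * (1 / Real.sin (om / 2)) +
      c * a ^ (Real.pi / om) * xqphi (Real.pi / om) s| ≤ C * a ^ 2 * (1 + s ^ 2) := by
  have h0 : (0 : ℝ) < 1 + s ^ 2 := by positivity
  have h1 : 0 < Real.sqrt (1 + s ^ 2) := Real.sqrt_pos.2 h0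
  have hom : 0 < om := by linarith [Real.pi_pos]
  have hsin : 0 < Real.sin (om / 2) :=
    Real.sin_pos_of_pos_of_lt_pi (by linarith) (by linarith [Real.pi_pos])
  have hsin2 : 0 < Real.sin om := Real.sin_pos_of_pos_of_lt_pi hom hπ
  have h2 := hexp (a * Real.sqrt (1 + s ^ 2)) ⟨mul_pos ha h1, har⟩ _ (xq_angle h hπ hs)
  rw [xq_polar] at h2
  -- inner product with γ
  have hcos : 0 < Real.cos (om / 2) := Real.cos_pos_of_mem_Ioo ⟨by linarith, by linarith⟩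
  have hso : Real.sin om = 2 * Real.sin (om / 2) * Real.cos (om / 2) := by
    rw [← Real.sin_two_mul]; ring_nf
  have hco : Real.cos om = 2 * Real.cos (om / 2) ^ 2 - 1 := by
    rw [← Real.cos_two_mul]; ring_nf
  have hsc := Real.sin_sq_add_cos_sq (om / 2)
  have hγe1 : ⟪γ, e1⟫ = Real.cos (om / 2) / Real.sin (om / 2) := by
    rw [inner_add_right, inner_smul_right, inner_smul_right, hγ1, hso, hco] at hγ2
    rw [eq_div_iff hsin.ne']
    have h3 : 2 * Real.cos (om / 2) * (⟪γ, e1⟫ * Real.sin (om / 2)) =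
        2 * Real.cos (om / 2) * Real.cos (om / 2) := by linarith
    exact mul_left_cancel₀ (by positivity) h3
  have hin : ⟪γ, a • (Real.cos (om / 2) • e1 + Real.sin (om / 2) • e2) +
        (a * s) • ((-Real.sin (om / 2)) • e1 + Real.cos (om / 2) • e2)⟫ =
      a * (1 / Real.sin (om / 2)) := by
    rw [inner_add_right, inner_smul_right, inner_smul_right, inner_add_right, inner_add_right,
      inner_smul_right, inner_smul_right, inner_smul_right, inner_smul_right, hγ1, hγe1]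
    have h4 : Real.cos (om / 2) ^ 2 = 1 - Real.sin (om / 2) ^ 2 := by linarith
    field_simp
    rw [h4]
    ring
  rw [hin] at h2
  have hpow : c * (a * Real.sqrt (1 + s ^ 2)) ^ (Real.pi / om) *
      Real.cos (Real.pi / om * (om / 2 + Real.arctan s)) =
      - (c * a ^ (Real.pi / om) * xqphi (Real.pi / om) s) := by
    have h5 : Real.pi / om * (om / 2 + Real.arctan s) =
        Real.pi / om * Real.arctan s + Real.pi / 2 := by
      field_simp
      ring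
    rw [h5, Real.cos_add_pi_div_two, Real.mul_rpow ha.le h1.le, xqphi]
    have h6 : √(1 + s ^ 2) ^ (Real.pi / om) = (1 + s ^ 2) ^ (Real.pi / om / 2) := by
      rw [Real.sqrt_eq_rpow, ← Real.rpow_mul h0.le]
      congr 1
      ring
    rw [h6]
    ring
  rw [hpow] at h2
  have h7 : C * (a * √(1 + s ^ 2)) ^ 2 = C * a ^ 2 * (1 + s ^ 2) := by
    rw [mul_pow, Real.sq_sqrt h0.le]; ring
  rw [h7, sub_neg_eq_add] at h2
  exact h2

/-- the points used below -/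
def xqpt (e1 e2 : E d) (om κ σ t : ℝ) : E d :=
  (t * (1 + κ * t ^ (Real.pi / om - 1))) • (Real.cos (om / 2) • e1 + Real.sin (om / 2) • e2) +
        (t * σ) • ((-Real.sin (om / 2)) • e1 + Real.cos (om / 2) • e2)

theorem xq_ev (h : Real.pi / 2 < om) (hπ : om < Real.pi) (hr : 0 < r) (κ : ℝ) {σ : ℝ}
    (hσ : |σ| < Real.tan (om / 2)) :
    Tendsto (fun t : ℝ => 1 + κ * t ^ (Real.pi / om - 1)) (𝓝[>] 0) (𝓝 1) ∧
    ∀ᶠ t in 𝓝[>] (0 : ℝ), 0 < t ∧ 0 < 1 + κ * t ^ (Real.pi / om - 1) ∧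
      |σ / (1 + κ * t ^ (Real.pi / om - 1))| < Real.tan (om / 2) ∧
      t * (1 + κ * t ^ (Real.pi / om - 1)) *
        Real.sqrt (1 + (σ / (1 + κ * t ^ (Real.pi / om - 1))) ^ 2) < r := by
  have hom : 0 < om := by linarith [Real.pi_pos]
  have hβ : 0 < Real.pi / om - 1 := by
    rw [sub_pos, lt_div_iff₀ hom]; linarith
  have hq : Tendsto (fun t : ℝ => t ^ (Real.pi / om - 1)) (𝓝[>] 0) (𝓝 0) := by
    have h1 := (Real.continuousAt_rpow_const 0 (Real.pi / om - 1) (Or.inr hβ.le)).tendsto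
    rw [Real.zero_rpow hβ.ne'] at h1
    exact h1.mono_left nhdsWithin_le_nhds
  have hA : Tendsto (fun t : ℝ => 1 + κ * t ^ (Real.pi / om - 1)) (𝓝[>] 0) (𝓝 1) := by
    have := (hq.const_mul κ).const_add 1
    simpa using this
  have hS : Tendsto (fun t : ℝ => σ / (1 + κ * t ^ (Real.pi / om - 1))) (𝓝[>] 0) (𝓝 σ) := by
    have := (tendsto_const_nhds (x := σ)).div hA one_ne_zero
    rw [div_one] at this
    exact this
  have hid : Tendsto (fun t : ℝ => t) (𝓝[>] 0) (𝓝 0) := tendsto_id.mono_left nhdsWithin_le_nhds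
  have hR : Tendsto (fun t : ℝ => t * (1 + κ * t ^ (Real.pi / om - 1)) *
        Real.sqrt (1 + (σ / (1 + κ * t ^ (Real.pi / om - 1))) ^ 2)) (𝓝[>] 0) (𝓝 0) := by
    have h1 := (hid.mul hA).mul (((hS.pow 2).const_add 1).sqrt)
    simpa using h1
  refine ⟨hA, ?_⟩
  filter_upwards [self_mem_nhdsWithin, hA.eventually (lt_mem_nhds one_pos),
    (hS.abs).eventually (gt_mem_nhds hσ), hR.eventually (gt_mem_nhds hr)] with t h1 h2 h3 h4
  exact ⟨h1, h2, h3, h4⟩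

theorem xq_mem (h : Real.pi / 2 < om) (hπ : om < Real.pi) {κ σ t : ℝ}
    (h1 : 0 < t) (h2 : 0 < 1 + κ * t ^ (Real.pi / om - 1))
    (h3 : |σ / (1 + κ * t ^ (Real.pi / om - 1))| < Real.tan (om / 2))
    (h4 : t * (1 + κ * t ^ (Real.pi / om - 1)) *
        Real.sqrt (1 + (σ / (1 + κ * t ^ (Real.pi / om - 1))) ^ 2) < r) :
    ∃ ρ ∈ Ioo 0 r, ∃ θ ∈ Ioo 0 om, xqpt e1 e2 om κ σ t = yy e1 e2 ρ θ := by
  refine ⟨_, ⟨mul_pos (mul_pos h1 h2) (Real.sqrt_pos.2 (by positivity)), h4⟩, _,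
    xq_angle h hπ h3, ?_⟩
  rw [xq_polar, xqpt]
  congr 2
  rw [mul_assoc, mul_div_cancel₀ _ h2.ne']

theorem xq_lim (h : Real.pi / 2 < om) (hπ : om < Real.pi) (hr : 0 < r)
    (hγ1 : ⟪γ, e2⟫ = 1)
    (hγ2 : ⟪γ, (-Real.sin om) • e1 + Real.cos om • e2⟫ = -1)
    (hexp : ∀ ρ ∈ Ioo 0 r, ∀ θ ∈ Ioo 0 om, |F (yy e1 e2 ρ θ) - V0 - ⟪γ, yy e1 e2 ρ θ⟫ -
      c * ρ ^ (Real.pi / om) * Real.cos (Real.pi / om * θ)| ≤ C * ρ ^ 2)
    (κ : ℝ) {σ : ℝ} (hσ : |σ| < Real.tan (om / 2)) :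
    Tendsto (fun t : ℝ => (F (xqpt e1 e2 om κ σ t) - V0 - t * (1 / Real.sin (om / 2))) /
      t ^ (Real.pi / om)) (𝓝[>] 0)
      (𝓝 (κ * (1 / Real.sin (om / 2)) - c * xqphi (Real.pi / om) σ)) := by
  have hom : 0 < om := by linarith [Real.pi_pos]
  set β := Real.pi / om with hβdef
  have hβ1 : 1 < β := by rw [hβdef, lt_div_iff₀ hom]; linarith
  have hβ2 : β < 2 := by rw [hβdef, div_lt_iff₀ hom]; linarith
  obtain ⟨hA, hev⟩ := xq_ev (r := r) h hπ hr κ hσ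
  rw [← hβdef] at hA hev
  have hS : Tendsto (fun t : ℝ => σ / (1 + κ * t ^ (β - 1))) (𝓝[>] 0) (𝓝 σ) := by
    have := (tendsto_const_nhds (x := σ)).div hA one_ne_zero
    rw [div_one] at this
    exact this
  have hφ : Tendsto (fun t : ℝ => xqphi β (σ / (1 + κ * t ^ (β - 1)))) (𝓝[>] 0)
      (𝓝 (xqphi β σ)) := ((xq_hasDeriv β σ).continuousAt.tendsto).comp hS
  have hAβ : Tendsto (fun t : ℝ => (1 + κ * t ^ (β - 1)) ^ β) (𝓝[>] 0) (𝓝 1) := by
    have h1 := hA.rpow_const (p := β) (Or.inl one_ne_zero)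
    rwa [Real.one_rpow] at h1
  have h1 : Tendsto (fun t : ℝ => κ * (1 / Real.sin (om / 2)) -
      c * ((1 + κ * t ^ (β - 1)) ^ β * xqphi β (σ / (1 + κ * t ^ (β - 1))))) (𝓝[>] 0)
      (𝓝 (κ * (1 / Real.sin (om / 2)) - c * xqphi β σ)) := by
    have := ((hAβ.mul hφ).const_mul c).const_sub (κ * (1 / Real.sin (om / 2)))
    simpa using this
  have h2β : Tendsto (fun t : ℝ => t ^ (2 - β)) (𝓝[>] 0) (𝓝 0) := by
    have h1 := (Real.continuousAt_rpow_const 0 (2 - β) (Or.inr (by linarith))).tendsto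
    rw [Real.zero_rpow (by linarith)] at h1
    exact h1.mono_left nhdsWithin_le_nhds
  have herr : Tendsto (fun t : ℝ => C * (1 + κ * t ^ (β - 1)) ^ 2 *
      (1 + (σ / (1 + κ * t ^ (β - 1))) ^ 2) * t ^ (2 - β)) (𝓝[>] 0) (𝓝 0) := by
    have := (((hA.pow 2).const_mul C).mul ((hS.pow 2).const_add 1)).mul h2β
    simpa using this
  refine h1.congr_dist ?_
  refine squeeze_zero' (Eventually.of_forall fun t => dist_nonneg) ?_ herr
  filter_upwards [hev] with t ht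
  obtain ⟨ht0, hA0, hs, hrr⟩ := ht
  set A := 1 + κ * t ^ (β - 1) with hAdef
  have h3 := xq_exp h hπ hγ1 hγ2 hexp (mul_pos ht0 hA0) hs hrr
  have hpt : (t * A) • (Real.cos (om / 2) • e1 + Real.sin (om / 2) • e2) +
        (t * A * (σ / A)) • ((-Real.sin (om / 2)) • e1 + Real.cos (om / 2) • e2) =
        xqpt e1 e2 om κ σ t := by
    rw [xqpt]
    congr 2
    rw [mul_assoc, mul_div_cancel₀ _ hA0.ne']
  rw [hpt, ← hβdef, Real.mul_rpow ht0.le hA0.le] at h3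
  have htβ : 0 < t ^ β := Real.rpow_pos_of_pos ht0 β
  have htt : t * t ^ (β - 1) = t ^ β := by
    rw [Real.rpow_sub_one ht0.ne', mul_div_cancel₀ _ ht0.ne']
  have hta : t * A = t + κ * t ^ β := by rw [hAdef, ← htt]; ring
  have ht2 : t ^ (2 - β) * t ^ β = t ^ 2 := by
    rw [← Real.rpow_add ht0, ← Real.rpow_natCast]
    congr 1
    push_cast
    ring
  rw [Real.dist_eq]
  have h4 : κ * (1 / Real.sin (om / 2)) - c * (A ^ β * xqphi β (σ / A)) -
      (F (xqpt e1 e2 om κ σ t) - V0 - t * (1 / Real.sin (om / 2))) / t ^ β =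
      -(F (xqpt e1 e2 om κ σ t) - V0 - t * A * (1 / Real.sin (om / 2)) +
        c * (t ^ β * A ^ β) * xqphi β (σ / A)) / t ^ β := by
    rw [hta]
    field_simp
    ring
  rw [h4, abs_div, abs_neg, abs_of_pos htβ, div_le_iff₀ htβ]
  refine h3.trans (le_of_eq ?_)
  calc C * (t * A) ^ 2 * (1 + (σ / A) ^ 2) = C * A ^ 2 * (1 + (σ / A) ^ 2) * t ^ 2 := by ring
    _ = C * A ^ 2 * (1 + (σ / A) ^ 2) * (t ^ (2 - β) * t ^ β) := by rw [ht2]
    _ = _ := by ring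

theorem xq_main (h : Real.pi / 2 < om) (hπ : om < Real.pi) (hr : 0 < r)
    (hγ1 : ⟪γ, e2⟫ = 1)
    (hγ2 : ⟪γ, (-Real.sin om) • e1 + Real.cos om • e2⟫ = -1)
    (hexp : ∀ ρ ∈ Ioo 0 r, ∀ θ ∈ Ioo 0 om, |F (yy e1 e2 ρ θ) - V0 - ⟪γ, yy e1 e2 ρ θ⟫ -
      c * ρ ^ (Real.pi / om) * Real.cos (Real.pi / om * θ)| ≤ C * ρ ^ 2)
    (hqc : ∀ x y, (∃ ρ ∈ Ioo 0 r, ∃ θ ∈ Ioo 0 om, x = yy e1 e2 ρ θ) →
      (∃ ρ ∈ Ioo 0 r, ∃ θ ∈ Ioo 0 om, y = yy e1 e2 ρ θ) →
      min (F x) (F y) ≤ F ((1 / 2 : ℝ) • x + (1 / 2 : ℝ) • y))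
    {σ1 σ2 : ℝ} (h1 : |σ1| < Real.tan (om / 2)) (h2 : |σ2| < Real.tan (om / 2)) :
    c * (xqphi (Real.pi / om) ((σ1 + σ2) / 2) -
      (xqphi (Real.pi / om) σ1 + xqphi (Real.pi / om) σ2) / 2) ≤ 0 := by
  have hom : 0 < om := by linarith [Real.pi_pos]
  have hsin : 0 < Real.sin (om / 2) :=
    Real.sin_pos_of_pos_of_lt_pi (by linarith) (by linarith [Real.pi_pos])
  set β := Real.pi / om with hβdef
  set lam := 1 / Real.sin (om / 2) with hlam
  have hlam0 : 0 < lam := by rw [hlam]; positivity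
  set κ := c * (xqphi β σ1 - xqphi β σ2) / (2 * lam) with hκ
  have h3 : |(σ1 + σ2) / 2| < Real.tan (om / 2) := by
    obtain ⟨a1, a2⟩ := abs_lt.1 h1
    obtain ⟨b1, b2⟩ := abs_lt.1 h2
    rw [abs_lt]
    exact ⟨by linarith, by linarith⟩
  have l1 := xq_lim h hπ hr hγ1 hγ2 hexp κ h1
  have l2 := xq_lim h hπ hr hγ1 hγ2 hexp (-κ) h2
  have l3 := xq_lim h hπ hr hγ1 hγ2 hexp 0 h3
  rw [← hlam, ← hβdef] at l1 l2 l3
  have l4 := l1.min l2
  have e1' := (xq_ev (r := r) h hπ hr κ h1).2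
  have e2' := (xq_ev (r := r) h hπ hr (-κ) h2).2
  have hle := le_of_tendsto_of_tendsto l4 l3 (by
    filter_upwards [e1', e2'] with t ht1 ht2
    obtain ⟨ht0, a1, a2, a3⟩ := ht1
    obtain ⟨_, b1, b2, b3⟩ := ht2
    have hq := hqc _ _ (xq_mem (e1 := e1) (e2 := e2) h hπ ht0 a1 a2 a3)
      (xq_mem (e1 := e1) (e2 := e2) h hπ ht0 b1 b2 b3)
    have hmid : (1 / 2 : ℝ) • xqpt e1 e2 om κ σ1 t + (1 / 2 : ℝ) • xqpt e1 e2 om (-κ) σ2 t =
        xqpt e1 e2 om 0 ((σ1 + σ2) / 2) t := by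
      unfold xqpt
      module
    rw [hmid] at hq
    have htβ : 0 < t ^ β := Real.rpow_pos_of_pos ht0 β
    rcases min_le_iff.1 hq with h5 | h5
    · refine (min_le_left _ _).trans ?_
      apply div_le_div_of_nonneg_right _ htβ.le
      linarith
    · refine (min_le_right _ _).trans ?_
      apply div_le_div_of_nonneg_right _ htβ.le
      linarith)
  have hκl : κ * lam = c * (xqphi β σ1 - xqphi β σ2) / 2 := by
    rw [hκ]; field_simp
  have m1 : κ * lam - c * xqphi β σ1 = -κ * lam - c * xqphi β σ2 := by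
    rw [neg_mul, hκl]; ring
  rw [← m1, min_self, hκl] at hle
  linarith

end

/-- **XQ.** quasi-concavity excludes the singular term at obtuse edges -/
theorem qc_kills {d : ℕ} {om : ℝ} (h : Real.pi / 2 < om) (hπ : om < Real.pi) {e1 e2 γ : E d}
    (n1 : ‖e1‖ = 1) (n2 : ‖e2‖ = 1) (orth : ⟪e1, e2⟫ = 0) (hγ1 : ⟪γ, e2⟫ = 1)
    (hγ2 : ⟪γ, (-Real.sin om) • e1 + Real.cos om • e2⟫ = -1) (F : E d → ℝ) (V0 c C r : ℝ)
    (hr : 0 < r)
    (hexp : ∀ ρ ∈ Ioo 0 r, ∀ θ ∈ Ioo 0 om, |F (yy e1 e2 ρ θ) - V0 - ⟪γ, yy e1 e2 ρ θ⟫ -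
      c * ρ ^ (Real.pi / om) * Real.cos (Real.pi / om * θ)| ≤ C * ρ ^ 2)
    (hcont : ContinuousOn F {z | ∃ ρ ∈ Ioo 0 r, ∃ θ ∈ Ioo 0 om, z = yy e1 e2 ρ θ})
    (hqc : ∀ x y, (∃ ρ ∈ Ioo 0 r, ∃ θ ∈ Ioo 0 om, x = yy e1 e2 ρ θ) →
      (∃ ρ ∈ Ioo 0 r, ∃ θ ∈ Ioo 0 om, y = yy e1 e2 ρ θ) →
      min (F x) (F y) ≤ F ((1 / 2 : ℝ) • x + (1 / 2 : ℝ) • y)) : c = 0 := by
  have hom : 0 < om := by linarith [Real.pi_pos]
  have hβ1 : 1 < Real.pi / om := by rw [lt_div_iff₀ hom]; linarith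
  have hβ2 : Real.pi / om < 2 := by rw [div_lt_iff₀ hom]; linarith
  have htan : 0 < Real.tan (om / 2) := Real.tan_pos_of_pos_of_lt_pi_div_two (by linarith)
    (by linarith)
  set σ := Real.tan (om / 2) / 2 with hσ
  have hσ0 : 0 < σ := by positivity
  have hσ1 : |σ| < Real.tan (om / 2) := by rw [abs_of_pos hσ0]; linarith
  have hσ2 : |-σ| < Real.tan (om / 2) := by rw [abs_neg]; exact hσ1
  have h0 : |(0 : ℝ)| < Real.tan (om / 2) := by simpa using htan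
  have hz : xqphi (Real.pi / om) 0 = 0 := by simp [xqphi]
  have k1 := xq_main h hπ hr hγ1 hγ2 hexp hqc h0 hσ1
  have k2 := xq_main h hπ hr hγ1 hγ2 hexp hqc h0 hσ2
  have hlt := xq_half hβ1 hβ2 hσ0
  rw [hz, zero_add, zero_add] at k1 k2
  rw [show -σ / 2 = -(σ / 2) by ring, xq_odd, xq_odd] at k2
  have hB : 0 < xqphi (Real.pi / om) σ / 2 - xqphi (Real.pi / om) (σ / 2) := by linarith
  have c1 : 0 ≤ c := by
    by_contra hc
    push Not at hc
    nlinarith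
  have c2 : c ≤ 0 := by
    by_contra hc
    push Not at hc
    nlinarith
  exact le_antisymm c2 c1

end

end Pool.Agent.Lib_helper70.Robin
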