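import Pool.Agent.Lib_helper13.Robin.Geo

/-!
# Robin project, block Z1: irredundant presentations
-/

namespace Pool.Agent.Lib_helper70.Robin

open Pool.Agent.Lib_helper13.Robin
open MeasureTheory Set Metric Filter Topology
open scoped RealInnerProductSpace ContDiff

noncomputable section

variable {d m : ℕ}

/-- **Z1.** every presentation with consistent normals contains an irredundant one -/
theorem exists_pd (hd : 3 ≤ d) (ν : Fin m → E d) (b : Fin m → ℝ) (hν : ∀ i, ‖ν i‖ = 1)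
    (hb : Bornology.IsBounded {x : E d | ∀ i, ⟪ν i, x⟫ < b i})
    (hne : {x : E d | ∀ i, ⟪ν i, x⟫ < b i}.Nonempty)
    (hc : ∀ x : E d, (∀ i, ⟪ν i, x⟫ ≤ b i) →
      ∃ γ : E d, ∀ i, ⟪ν i, x⟫ = b i → ⟪ν i, γ⟫ = -1) :
    ∃ (m' : ℕ) (P : PD d m'), P.Om = {x : E d | ∀ i, ⟪ν i, x⟫ < b i} := by
  classical
  -- a minimal set of constraints
  have hex : ∃ S : Finset (Fin m), (∀ x : E d, (∀ i ∈ S, ⟪ν i, x⟫ < b i) → ∀ i, ⟪ν i, x⟫ < b i) ∧
      ∀ T : Finset (Fin m), (∀ x : E d, (∀ i ∈ T, ⟪ν i, x⟫ < b i) → ∀ i, ⟪ν i, x⟫ < b i) →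
        S.card ≤ T.card := by
    obtain ⟨S, hS, hmin⟩ := Finset.exists_min_image
      (Finset.univ.filter fun T : Finset (Fin m) =>
        ∀ x : E d, (∀ i ∈ T, ⟪ν i, x⟫ < b i) → ∀ i, ⟪ν i, x⟫ < b i) Finset.card
      ⟨Finset.univ, Finset.mem_filter.2 ⟨Finset.mem_univ _, fun x h i => h i (Finset.mem_univ i)⟩⟩
    refine ⟨S, (Finset.mem_filter.1 hS).2, fun T hT => hmin T ?_⟩
    exact Finset.mem_filter.2 ⟨Finset.mem_univ _, hT⟩
  obtain ⟨S, hS, hmin⟩ := hex
  obtain ⟨z, hz⟩ := hne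
  set e : Fin S.card ≃ S := S.equivFin.symm with he
  have hOm : {x : E d | ∀ k : Fin S.card, ⟪ν (e k), x⟫ < b (e k)} =
      {x : E d | ∀ i, ⟪ν i, x⟫ < b i} := by
    ext x
    simp only [mem_ofPred_eq]
    constructor
    · intro h
      apply hS x
      intro i hi
      have := h (e.symm ⟨i, hi⟩)
      rwa [Equiv.apply_symm_apply] at this
    · intro h k
      exact h _
  refine ⟨S.card, ⟨hd, fun k => ν (e k), fun k => b (e k), fun k => hν _, ?_, ?_, ?_, ?_⟩, ?_⟩
  · rw [hOm]; exact hb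
  · rw [hOm]; exact ⟨z, hz⟩
  · -- irredundancy
    intro k
    have h1 : ¬ ∀ x : E d, (∀ i ∈ S.erase (e k : Fin m), ⟪ν i, x⟫ < b i) →
        ∀ i, ⟪ν i, x⟫ < b i := by
      intro h
      have h2 := hmin _ h
      have h3 := Finset.card_erase_lt_of_mem (e k).2
      omega
    push Not at h1
    obtain ⟨y, hy, hy2⟩ := h1
    have hyk : b (e k) ≤ ⟪ν (e k), y⟫ := by
      by_contra hlt
      push Not at hlt
      obtain ⟨i, hi⟩ := hy2
      refine absurd (hS y ?_ i) (not_lt.2 hi)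
      intro j hj
      by_cases hjk : j = (e k : Fin m)
      · rw [hjk]; exact hlt
      · exact hy j (Finset.mem_erase.2 ⟨hjk, hj⟩)
    have hzk := hz (e k)
    set p := ⟪ν (e k), z⟫ with hp
    set q := ⟪ν (e k), y⟫ with hq
    set B := b (e k) with hB
    have hqp : 0 < q - p := by linarith
    set t := (B - p) / (q - p) with ht
    have ht0 : 0 < t := div_pos (by linarith) hqp
    have ht1 : t ≤ 1 := by rw [ht, div_le_one hqp]; linarith
    refine ⟨(1 - t) • z + t • y, ?_, ?_⟩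
    · rw [inner_add_right, inner_smul_right, inner_smul_right, ← hp, ← hq]
      have h5 : t * (q - p) = B - p := by rw [ht]; field_simp
      linarith
    · intro j hj
      have hjk : (e j : Fin m) ≠ (e k : Fin m) := fun h => hj (e.injective (Subtype.ext h))
      have h6 := hy (e j) (Finset.mem_erase.2 ⟨hjk, (e j).2⟩)
      have h7 := hz (e j)
      rw [inner_add_right, inner_smul_right, inner_smul_right]
      have h8 : t * ⟪ν (e j), y⟫ < t * b (e j) := mul_lt_mul_of_pos_left h6 ht0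
      have h9 : (1 - t) * ⟪ν (e j), z⟫ ≤ (1 - t) * b (e j) :=
        mul_le_mul_of_nonneg_left h7.le (by linarith)
      linarith
  · -- consistency
    intro x hx
    have hx' : ∀ i, ⟪ν i, x⟫ ≤ b i := by
      intro i
      have hseg : ∀ t : ℝ, t ∈ Ioc (0 : ℝ) 1 → ⟪ν i, (1 - t) • x + t • z⟫ < b i := by
        intro t ht
        apply hS
        intro j hj
        have h1 := hx (e.symm ⟨j, hj⟩)
        simp only [Equiv.apply_symm_apply] at h1
        rw [inner_add_right, inner_smul_right, inner_smul_right]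
        have h8 : t * ⟪ν j, z⟫ < t * b j := mul_lt_mul_of_pos_left (hz j) ht.1
        have h9 : (1 - t) * ⟪ν j, x⟫ ≤ (1 - t) * b j :=
          mul_le_mul_of_nonneg_left h1 (by linarith [ht.2])
        linarith
      have hlim : Tendsto (fun t : ℝ => ⟪ν i, (1 - t) • x + t • z⟫) (𝓝[>] 0) (𝓝 ⟪ν i, x⟫) := by
        have h1 : Continuous (fun t : ℝ => ⟪ν i, (1 - t) • x + t • z⟫) := by fun_prop
        have h2 := h1.tendsto 0
        simp only [sub_zero, one_smul, zero_smul, add_zero] at h2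
        exact h2.mono_left nhdsWithin_le_nhds
      apply le_of_tendsto hlim
      have h3 : Ioc (0 : ℝ) 1 ∈ 𝓝[>] (0 : ℝ) := Ioc_mem_nhdsGT one_pos
      filter_upwards [h3] with t ht
      exact (hseg t ht).le
    obtain ⟨γ, hγ⟩ := hc x hx'
    exact ⟨γ, fun k hk => hγ _ hk⟩
  · exact hOm

end

end Pool.Agent.Lib_helper70.Robin
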